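import Pool.Graph.R_seed8.W958.ST.Stms

/-!
# The two arrangements over an arbitrary field

The Solomon-Terao counterexample (library modules `Pool.Graph.R_seed8.W958.ST.*`, written there over
the rational numbers) over an arbitrary field.  General notions (`lin`, `DD`, `HD`, `KZ`, `sdim`,
`Reg`, `prodArr`, `hyp`, `FS`, `FD`, ...) are those of the library.
-/

set_option autoImplicit false

namespace Pool.Agent.H67ST

open MvPolynomial Pool.Agent.W958.ST

variable {K : Type} [Field K]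

variable (K) in
/-- the cographic arrangement of `K_{3,3}` -/
def LT : Set (Fin 4 → K) :=
  {![1, 0, 0, 0], ![0, 1, 0, 0], ![0, 0, 1, 0], ![0, 0, 0, 1], ![1, 1, 0, 0], ![0, 0, 1, 1],
    ![1, 0, 1, 0], ![0, 1, 0, 1], ![1, 1, 1, 1]}

variable (K) in
/-- the hyperplane `d = 0` -/
def aT : Fin 4 → K := ![0, 0, 0, 1]

variable (K) in
/-- covector of the coordinate `c` of block `b` -/
def ev (b : Fin 4) (c : Fin 3) : Fin 12 → K := Pi.single (idx b c) 1

variable (K) in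
/-- the generic hyperplane `∑_b (t_b - 2 x_b + 2 y_b) = 0` -/
def aB : Fin 12 → K := ∑ b, (ev K b 2 - 2 • ev K b 1 + 2 • ev K b 0)

variable (K) in
/-- the four blocks `{t; x, x - t; y, y - t, y + t}` -/
def LA : Set (Fin 12 → K) :=
  {α | ∃ b, α = ev K b 2 ∨ α = ev K b 1 ∨ α = ev K b 1 - ev K b 2 ∨ α = ev K b 0 ∨
    α = ev K b 0 - ev K b 2 ∨ α = ev K b 0 + ev K b 2}

variable (K) in
/-- the arrangement `B`: the four blocks and the generic hyperplane -/
def LB : Set (Fin 12 → K) := insert (aB K) (LA K)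

variable (K) in
/-- the regular sequence: `-6 y_b ^ 3`, `2 x_b ^ 2 - 4 x_b y_b`, `t_b - 2 x_b + 2 y_b` -/
noncomputable def φB (i : Fin 12) : MvPolynomial (Fin 12) K :=
  let b : Fin 4 := ⟨i.1 / 3, by omega⟩
  if i.1 % 3 = 0 then -6 * X (idx b 0) ^ 3
  else if i.1 % 3 = 1 then 2 * X (idx b 1) ^ 2 - 4 * X (idx b 1) * X (idx b 0)
  else X (idx b 2) - 2 * X (idx b 1) + 2 * X (idx b 0)

variable (K) in
/-- ST-4 over `K`. -/
def StTS : Prop :=
  ∀ (σ : Type) (i : Fin 4 → σ), Function.Injective i →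
    ∀ a b c d : MvPolynomial σ K, a = X (i 0) → b = X (i 1) → c = X (i 2) → d = X (i 3) →
    (∀ u v w : MvPolynomial σ K, a ∣ u → b ∣ v → (b + d) ∣ v → c ∣ w → (c + d) ∣ w →
      (a + b) ∣ (u + v) → (a + c) ∣ (u + w) → (a + b + c + d) ∣ (u + v + w) →
      ∃ f : Fin 4 → MvPolynomial σ K, u = ∑ j, f j * tha a b c d j ∧
        v = ∑ j, f j * thb a b c d j ∧ w = ∑ j, f j * thc a b c d j) ∧
    (∀ f : Fin 4 → MvPolynomial σ K, ∑ j, f j * tha a b c d j = 0 → ∑ j, f j * thb a b c d j = 0 →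
      ∑ j, f j * thc a b c d j = 0 → ∃ g, f 0 = g * a ∧ f 1 = g * b ∧ f 2 = g * c ∧ f 3 = g * d)

variable (K) in
/-- ST-5 over `K`. -/
def StTdim : Prop :=
  (∀ k : ℕ, Module.finrank K (HD (LT K) (aT K) 0 k) = (k + 3).choose 3) ∧
  (∀ k : ℕ, k < 3 → Module.finrank K (HD (LT K) (aT K) 1 k) = 0) ∧
  (Module.finrank K (HD (LT K) (aT K) 1 3) = 4) ∧
  (∀ k : ℕ, Module.finrank K (HD (LT K) (aT K) 1 (k + 4)) + (k + 3).choose 3 =
    4 * (k + 4).choose 3) ∧
  (∀ k : ℕ, k < 5 → Module.finrank K (HD (LT K) (aT K) 2 k) = 0) ∧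
  (∀ k : ℕ, Module.finrank K (HD (LT K) (aT K) 2 (k + 5)) + (k + 4).choose 3 =
    4 * (k + 3).choose 3) ∧
  (∀ k : ℕ, k < 8 → Module.finrank K (HD (LT K) (aT K) 3 k) = 0) ∧
  (∀ k : ℕ, Module.finrank K (HD (LT K) (aT K) 3 (k + 8)) = (k + 3).choose 3)

variable (K) in
/-- ST-7 over `K`. -/
def StFrame : Prop :=
  ∀ p k : ℕ, Module.finrank K (HD (LB K) (aB K) p k) = Module.finrank K (KZ (φB K) dB p k)

variable (K) in
/-- ST-8 over `K`. -/
def StReg : Prop := (∀ i, (φB K i).IsHomogeneous (dB i)) ∧ Reg (φB K)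

variable (K) in
/-- ST-9 over `K`. -/
def StNonFree : Prop :=
  ∀ A : Finset (Submodule K (Fin (4 + 12) → K)),
    (∀ H, H ∈ A ↔ ∃ α ∈ prodArr (LT K) (LB K), H = hyp α) →
    ¬ Module.Free (MvPolynomial (Fin (4 + 12)) K)
      (Submodule.span (MvPolynomial (Fin (4 + 12)) K) (FD A))

end Pool.Agent.H67ST
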