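import Pool.Graph.R_seed8.W958.ST.Asm
import Pool.Agent.helper67ST.Defs

/-!
# Assembly over an arbitrary field
-/

set_option autoImplicit false

namespace Pool.Agent.H67ST

open Pool.Agent.W958.ST

variable {K : Type} [Field K]

theorem LT_ne : ∀ α ∈ (LT K), α ≠ 0 := by
  intro α hα h0
  subst h0
  simp only [LT, Set.mem_insert_iff, Set.mem_singleton_iff] at hα
  rcases hα with h | h | h | h | h | h | h | h | h
  · have := congrFun h 0; simp at this
  · have := congrFun h 1; simp at this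
  · have := congrFun h 2; simp at this
  · have := congrFun h 3; simp at this
  · have := congrFun h 0; simp at this
  · have := congrFun h 2; simp at this
  · have := congrFun h 0; simp at this
  · have := congrFun h 1; simp at this
  · have := congrFun h 0; simp at this

theorem aT_mem : (aT K) ∈ (LT K) := by simp [LT, aT]

theorem psiHT (hE : StEuler) (hD : (StTdim K)) (hH : (1 - PowerSeries.X) ^ 4 * H4 = 1) :
    (1 - PowerSeries.X) ^ 4 * Psi (fun p k => Module.finrank K (HD (LT K) (aT K) p k)) 4 =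
      1 - 4 * PowerSeries.X ^ 4 + PowerSeries.X ^ 5 + 4 * PowerSeries.X ^ 7 -
        PowerSeries.X ^ 6 + PowerSeries.X ^ 6 * (1 - PowerSeries.X) ^ 4 - PowerSeries.X ^ 11 := by
  obtain ⟨d0, d1a, d1b, d1c, d2a, d2b, d3a, d3b⟩ := hD
  have h4 := (hE K (Fin 4) (LT K) (aT K) aT_mem (LT_ne _ aT_mem)).2.2.2.1
  have g0 : gen (fun k => Module.finrank K (HD (LT K) (aT K) 0 k)) = H4 := by
    unfold H4
    congr 1
    funext k
    exact d0 k
  have g4 : gen (fun k => Module.finrank K (HD (LT K) (aT K) 4 k)) = 0 :=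
    gen_zero_iff _ fun k => h4 _ k (by simp)
  have g1 : gen (fun k => Module.finrank K (HD (LT K) (aT K) 1 k)) =
      (4 * PowerSeries.X ^ 3 - PowerSeries.X ^ 4) * H4 := by
    ext k
    have e : (4 * PowerSeries.X ^ 3 - PowerSeries.X ^ 4) * H4 =
      PowerSeries.X ^ 3 * (PowerSeries.C (4 : ℤ) * H4) - PowerSeries.X ^ 4 * H4 := by
      rw [map_ofNat]; ring
    rw [e, map_sub, PowerSeries.coeff_X_pow_mul', PowerSeries.coeff_X_pow_mul', gen, H4, gen,
      PowerSeries.coeff_mk]
    rcases Nat.lt_or_ge k 3 with h | h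
    · rw [if_neg (by omega), if_neg (by omega), d1a k h]; simp
    · obtain ⟨j, rfl⟩ : ∃ j, k = j + 3 := ⟨k - 3, by omega⟩
      rw [if_pos (by omega)]
      cases j with
      | zero =>
        rw [if_neg (by omega), PowerSeries.coeff_C_mul]
        simp [d1b]
      | succ j =>
        rw [if_pos (by omega)]
        have := d1c j
        have e1 : j + 1 + 3 - 3 = j + 1 := by omega
        have e2 : j + 1 + 3 - 4 = j := by omega
        have e3 : j + 1 + 3 = j + 4 := by omega
        simp only [PowerSeries.coeff_C_mul, PowerSeries.coeff_mk, e1, e2]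
        rw [e3]
        zify at this
        linarith
  have g2 : gen (fun k => Module.finrank K (HD (LT K) (aT K) 2 k)) =
      4 * PowerSeries.X ^ 5 * H4 - PowerSeries.X ^ 4 * (H4 - 1) := by
    ext k
    have e : 4 * PowerSeries.X ^ 5 * H4 - PowerSeries.X ^ 4 * (H4 - 1) =
      PowerSeries.X ^ 5 * (PowerSeries.C (4 : ℤ) * H4) - PowerSeries.X ^ 4 * (H4 - 1) := by
      rw [map_ofNat]; ring
    rw [e, map_sub, PowerSeries.coeff_X_pow_mul', PowerSeries.coeff_X_pow_mul', gen, H4, gen,
      PowerSeries.coeff_mk]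
    rcases Nat.lt_or_ge k 5 with h | h
    · rw [if_neg (by omega), d2a k h]
      rcases Nat.lt_or_ge k 4 with h' | h'
      · rw [if_neg (by omega)]; simp
      · obtain rfl : k = 4 := by omega
        simp
    · obtain ⟨j, rfl⟩ : ∃ j, k = j + 5 := ⟨k - 5, by omega⟩
      rw [if_pos (by omega), if_pos (by omega)]
      have := d2b j
      have e1 : j + 5 - 5 = j := by omega
      have e2 : j + 5 - 4 = j + 1 := by omega
      simp only [PowerSeries.coeff_C_mul, map_sub, PowerSeries.coeff_mk, e1, e2,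
        PowerSeries.coeff_one]
      zify at this
      rw [if_neg (by omega)]
      have e3 : j + 1 + 3 = j + 4 := by omega
      rw [e3]
      linarith
  have g3 : gen (fun k => Module.finrank K (HD (LT K) (aT K) 3 k)) = PowerSeries.X ^ 8 * H4 := by
    ext k
    rw [PowerSeries.coeff_X_pow_mul', gen, H4, gen, PowerSeries.coeff_mk]
    rcases Nat.lt_or_ge k 8 with h | h
    · rw [if_neg (by omega), d3a k h]; simp
    · obtain ⟨j, rfl⟩ : ∃ j, k = j + 8 := ⟨k - 8, by omega⟩
      rw [if_pos (by omega), d3b j]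
      simp
  unfold Psi
  simp only [Finset.sum_range_succ, Finset.sum_range_zero, g0, g1, g2, g3, g4]
  linear_combination (1 - PowerSeries.X * (4 * PowerSeries.X ^ 3 - PowerSeries.X ^ 4) +
    PowerSeries.X ^ 2 * (4 * PowerSeries.X ^ 5 - PowerSeries.X ^ 4) - PowerSeries.X ^ 11) * hH

theorem psiDT (hE : StEuler) (hD : (StTdim K)) (hH : (1 - PowerSeries.X) ^ 4 * H4 = 1) :
    (1 - PowerSeries.X) ^ 4 * Psi (fun p k => Module.finrank K (DD (LT K) p k)) 4 =
      (1 - PowerSeries.X ^ 2) * NT := by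
  have h1 := psi_dd_hd hE (LT K) (aT K) aT_mem (LT_ne _ aT_mem)
  rw [Fintype.card_fin] at h1
  rw [h1, NT, ← psiHT hE hD hH]
  ring

theorem ev_apply (b : Fin 4) (c : Fin 3) (i : Fin 12) : (ev K) b c i = if i = idx b c then 1 else 0 := by
  simp [ev, Pi.single_apply]

theorem ev_idx (b b' : Fin 4) (c c' : Fin 3) :
    (ev K) b c (idx b' c') = if b = b' ∧ c = c' then 1 else 0 := by
  rw [ev_apply]
  congr 1
  simp only [idx, Fin.ext_iff, eq_iff_iff]
  omega

theorem aB_ne : (aB K) ≠ 0 := by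
  intro h
  have h2 := congrFun h (idx 0 2)
  simp only [aB, Finset.sum_apply, Pi.add_apply, Pi.sub_apply, Pi.smul_apply, ev_idx,
    Pi.zero_apply] at h2
  simp at h2

theorem aB_mem : (aB K) ∈ (LB K) := Set.mem_insert _ _

theorem LB_ne : ∀ α ∈ (LB K), α ≠ 0 := by
  intro α hα h0
  rcases hα with h | h
  · exact aB_ne (h ▸ h0)
  · obtain ⟨b, h⟩ := h
    subst h0
    rcases h with h | h | h | h | h | h
    · have := congrFun h (idx b 2); simp [ev_apply] at this
    · have := congrFun h (idx b 1); simp [ev_apply] at this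
    · have := congrFun h (idx b 1); simp [ev_apply, idx] at this
    · have := congrFun h (idx b 0); simp [ev_apply] at this
    · have := congrFun h (idx b 0); simp [ev_apply, idx] at this
    · have := congrFun h (idx b 0); simp [ev_apply, idx] at this

theorem psiHB (hF : (StFrame K)) (hK : StKoszul) (hR : (StReg K)) (hS : StSdim) :
    (1 - PowerSeries.X) ^ 13 * Psi (fun p k => Module.finrank K (HD (LB K) (aB K) p k)) 12 = NB := by
  have h1 := hK K (Fin 12) 12 (φB K) dB hR.1 hR.2
  have h2 : (fun p k => Module.finrank K (HD (LB K) (aB K) p k)) =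
      (fun p k => Module.finrank K (KZ (φB K) dB p k)) := by
    funext p k
    exact hF p k
  have h3 := hS K 12
  have e1 : ∏ i : Fin 12, (1 - (PowerSeries.X : PowerSeries ℤ) ^ (dB i + 1)) =
      (1 - PowerSeries.X ^ 4) ^ 4 * (1 - PowerSeries.X ^ 3) ^ 4 * (1 - PowerSeries.X ^ 2) ^ 4 := by
    simp only [Fin.prod_univ_succ, Fin.prod_univ_zero, dB]
    norm_num [Fin.val_succ]
    ring
  have e2 : ∏ i : Fin 12, (1 - (PowerSeries.X : PowerSeries ℤ) ^ (dB i)) =
      (1 - PowerSeries.X ^ 3) ^ 4 * (1 - PowerSeries.X ^ 2) ^ 4 * (1 - PowerSeries.X) ^ 4 := by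
    simp only [Fin.prod_univ_succ, Fin.prod_univ_zero, dB]
    norm_num [Fin.val_succ]
    ring
  rw [e1, e2] at h1
  rw [h2, NB]
  linear_combination (1 - PowerSeries.X) ^ 12 * h1 +
    ((1 - PowerSeries.X ^ 4) ^ 4 * (1 - PowerSeries.X ^ 3) ^ 4 * (1 - PowerSeries.X ^ 2) ^ 4 -
    PowerSeries.X * ((1 - PowerSeries.X ^ 3) ^ 4 * (1 - PowerSeries.X ^ 2) ^ 4 *
      (1 - PowerSeries.X) ^ 4)) * h3

theorem psiDB (hE : StEuler) (hF : (StFrame K)) (hK : StKoszul) (hR : (StReg K)) (hS : StSdim) :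
    (1 - PowerSeries.X) ^ 13 * Psi (fun p k => Module.finrank K (DD (LB K) p k)) 12 =
      (1 - PowerSeries.X ^ 2) * NB := by
  have h1 := psi_dd_hd hE (LB K) (aB K) aB_mem aB_ne
  rw [Fintype.card_fin] at h1
  rw [h1, ← psiHB hF hK hR hS]
  ring

theorem psiC (hE : StEuler) (hD : (StTdim K)) (hF : (StFrame K)) (hK : StKoszul) (hR : (StReg K))
    (hS : StSdim) (hH : (1 - PowerSeries.X) ^ 4 * H4 = 1) (hP : StProd) :
    (fC : PowerSeries ℤ) =
      Psi (fun p k => Module.finrank K (DD (prodArr (LT K) (LB K)) p k)) 16 := by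
  have hT := psiDT hE hD hH
  have hB := psiDB hE hF hK hR hS
  have hC := psi_conv (fun p k => Module.finrank K (DD (LT K) p k))
    (fun p k => Module.finrank K (DD (LB K) p k))
    (fun p k => Module.finrank K (DD (prodArr (LT K) (LB K)) p k)) 4 12
    (fun p k hp => (hE K (Fin 4) (LT K) (aT K) aT_mem (LT_ne _ aT_mem)).2.2.2.2 p k (by simpa using hp))
    (fun p k hp => (hE K (Fin 12) (LB K) (aB K) aB_mem aB_ne).2.2.2.2 p k (by simpa using hp))
    (fun p k => hP K 4 12 (LT K) (LB K) p k)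
  have h1 : (1 - PowerSeries.X : PowerSeries ℤ) ≠ 0 := by
    intro h
    have := congrArg (PowerSeries.coeff 0) h
    simp at this
  have h17 : (1 - PowerSeries.X : PowerSeries ℤ) ^ 17 ≠ 0 := pow_ne_zero _ h1
  apply mul_left_cancel₀ h17
  rw [show (16 : ℕ) = 4 + 12 from rfl, hC, fC_coe]
  have e2 : (1 - PowerSeries.X ^ 2 : PowerSeries ℤ) = (1 - PowerSeries.X) *
      (1 + PowerSeries.X) := by ring
  rw [NT_eq, e2] at hT
  rw [NB_eq, e2] at hB
  have h3 : (1 - PowerSeries.X : PowerSeries ℤ) ^ 17 *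
      (Psi (fun p k => Module.finrank K (DD (LT K) p k)) 4 *
        Psi (fun p k => Module.finrank K (DD (LB K) p k)) 12) =
      ((1 - PowerSeries.X) ^ 4 * Psi (fun p k => Module.finrank K (DD (LT K) p k)) 4) *
      ((1 - PowerSeries.X) ^ 13 * Psi (fun p k => Module.finrank K (DD (LB K) p k)) 12) := by
    ring
  rw [h3, hT, hB]
  ring

theorem prod_ne (α : Fin (4 + 12) → K) (hα : α ∈ prodArr (LT K) (LB K)) : α ≠ 0 := by
  intro h0
  subst h0
  rcases hα with ⟨β, hβ, h⟩ | ⟨β, hβ, h⟩
  · apply LT_ne β hβ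
    funext i
    have := congrFun h (Fin.castAdd 12 i)
    simpa using this
  · apply LB_ne β hβ
    funext i
    have := congrFun h (Fin.natAdd 4 i)
    simpa using this

theorem finite_LT : (LT K).Finite := by
  unfold LT
  exact Set.toFinite _

theorem finite_LB : (LB K).Finite := by
  unfold LB
  apply Set.Finite.insert
  have : (LA K) ⊆ ⋃ b : Fin 4, {(ev K) b 2, (ev K) b 1, (ev K) b 1 - (ev K) b 2, (ev K) b 0, (ev K) b 0 - (ev K) b 2,
      (ev K) b 0 + (ev K) b 2} := by
    rintro α ⟨b, h⟩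
    rw [Set.mem_iUnion]
    exact ⟨b, by simpa using h⟩
  exact (Set.finite_iUnion fun b => Set.toFinite _).subset this

theorem finite_prod : (prodArr (LT K) (LB K)).Finite :=
  (finite_LT.image _).union (finite_LB.image _)

theorem hyp_pi (n : ℕ) (α : Fin n → K) (h : α ≠ 0) :
    ∃ a : Module.Dual K (Fin n → K), a ≠ 0 ∧ LinearMap.ker a = hyp α := by
  refine ⟨∑ i, α i • (LinearMap.proj i : (Fin n → K) →ₗ[K] K), ?_, rfl⟩
  intro h0
  apply h
  funext i
  have := LinearMap.congr_fun h0 (Pi.single i 1)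
  simpa [LinearMap.sum_apply, Pi.single_apply] using this


end Pool.Agent.H67ST
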