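import Pool.Agent.helper67ST.Frame2

/-!
# (StFrame K) (project ST)
-/

set_option autoImplicit false

namespace Pool.Agent.H67ST.FR

open MvPolynomial Pool.Agent.W958.ST

variable {K : Type} [Field K]

variable {p k : ℕ}

/-- weights after the first step -/
def w1 : Fin 12 → ℕ := mk12 fun _ => ![0, 0, 1]

/-- degrees of `f2` -/
def e2 : Fin 12 → ℕ := mk12 fun _ => ![3, 2, 0]

theorem w1_idx (b : Fin 4) (c : Fin 3) : w1 (idx b c) = (![0, 0, 1] : Fin 3 → ℕ) c := mk12_idx _ b c

theorem e2_idx (b : Fin 4) (c : Fin 3) : e2 (idx b c) = (![3, 2, 0] : Fin 3 → ℕ) c := mk12_idx _ b c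

theorem dB_idx (b : Fin 4) (c : Fin 3) : dB (idx b c) = (![3, 2, 1] : Fin 3 → ℕ) c := by
  unfold dB idx
  fin_cases c <;> simp

theorem w1_add_e2 : (fun i => w1 i + e2 i) = dB := by
  apply ext12
  intro b c
  rw [w1_idx, e2_idx, dB_idx]
  fin_cases c <;> rfl

theorem homW_of {f : (SB K)} {d k A : ℕ} (h : f.IsHomogeneous d) (hk : k = A + d) : HomW f k A := by
  subst hk
  exact ⟨fun _ => by simpa using h, fun h1 => absurd h1 (by omega)⟩

theorem f1_hom (i : Fin 12) : ((f1 K) i).IsHomogeneous (w1 i) := by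
  obtain ⟨b, c, rfl⟩ := idx_surj i
  rw [f1_idx, w1_idx]
  fin_cases c
  · exact isHomogeneous_one _ _
  · exact isHomogeneous_one _ _
  · exact isHomogeneous_X _ _

theorem f2_hom (i : Fin 12) : ((f2 K) i).IsHomogeneous (e2 i) := by
  obtain ⟨b, c, rfl⟩ := idx_surj i
  rw [e2_idx]
  fin_cases c
  · change ((f2 K) (idx b 0)).IsHomogeneous 3
    rw [f2_zero]
    exact ((lin_hom _).mul (lin_hom _)).mul (lin_hom _)
  · change ((f2 K) (idx b 1)).IsHomogeneous 2
    rw [f2_one]
    exact (lin_hom _).mul (lin_hom _)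
  · change ((f2 K) (idx b 2)).IsHomogeneous 0
    rw [f2_idx]
    exact isHomogeneous_one _ _

theorem single_idx (b b' : Fin 4) (c c' : Fin 3) :
    (Pi.single (idx b c) 1 : Fin 12 → (SB K)) (idx b' c') = if b' = b ∧ c' = c then 1 else 0 := by
  simp only [Pi.single_apply, idx_eq_iff]

theorem smul_hom (n : ℕ) {f : (SB K)} {d : ℕ} (h : f.IsHomogeneous d) :
    ((n : (SB K)) * f).IsHomogeneous d := by
  have : (n : (SB K)) = C (n : K) := by simp
  rw [this]
  simpa using (isHomogeneous_C (Fin 12) (n : K)).mul h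

theorem al_hom (b : Fin 4) : ((al K) b).IsHomogeneous 1 :=
  ((isHomogeneous_X _ _).sub (smul_hom 2 (isHomogeneous_X K (idx b 1)))).add
    (smul_hom 2 (isHomogeneous_X K (idx b 0)))

theorem q_hom (b : Fin 4) : (2 * (yb K) b * ((al K) b - 4 * (yb K) b)).IsHomogeneous 2 := by
  have h1 := smul_hom 2 (isHomogeneous_X K (idx b 0))
  have h2 := (al_hom b).sub (smul_hom 4 (isHomogeneous_X K (idx b 0)))
  exact h1.mul h2

theorem r_hom (b : Fin 4) :
    (8 * (xb K) b * (yb K) b + 2 * (yb K) b * ((al K) b - 4 * (yb K) b)).IsHomogeneous 2 := by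
  have h1 := (smul_hom 8 (isHomogeneous_X K (idx b 1))).mul (isHomogeneous_X K (idx b 0))
  exact h1.add (q_hom b)

theorem V1_wt (i j : Fin 12) : HomW ((V1 K) (Pi.single i 1) j) (w1 j) (w1 i) := by
  obtain ⟨b, c, rfl⟩ := idx_surj i
  obtain ⟨b', c', rfl⟩ := idx_surj j
  rw [V1_idx, single_idx, single_idx, single_idx, w1_idx, w1_idx]
  by_cases hb : b' = b
  · subst hb
    fin_cases c <;> fin_cases c' <;> simp
    all_goals first
      | exact HomW.zero _ _
      | exact homW_of (isHomogeneous_one _ _) rfl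
      | exact homW_of (isHomogeneous_X _ _).neg rfl
  · simp only [hb, false_and, if_false]
    fin_cases c' <;> simp <;> exact HomW.zero _ _

theorem V2_wt (i j : Fin 12) : HomW ((V2 K) (Pi.single i 1) j) (dB j) (dB i) := by
  obtain ⟨b, c, rfl⟩ := idx_surj i
  obtain ⟨b', c', rfl⟩ := idx_surj j
  rw [V2_idx, single_idx, single_idx, single_idx, dB_idx, dB_idx]
  by_cases hb : b' = b
  · subst hb
    fin_cases c <;> fin_cases c'
    · simp; exact homW_of (isHomogeneous_one _ _) rfl
    · simp; exact HomW.zero _ _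
    · simp; exact HomW.zero _ _
    · simp; exact homW_of (smul_hom 4 (isHomogeneous_X K (idx b' 0))).neg rfl
    · simp; exact homW_of (isHomogeneous_one _ _) rfl
    · simp; exact HomW.zero _ _
    · have h := homW_of (k := 3) (A := 1) (r_hom (K := K) b').neg rfl
      simpa using h
    · simp; exact homW_of (smul_hom 2 (isHomogeneous_X K (idx b' 1))) rfl
    · simp; exact homW_of (isHomogeneous_one _ _) rfl
  · simp only [hb, false_and, if_false]
    fin_cases c' <;> simp <;> exact HomW.zero _ _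

theorem Th_wt (i j : Fin 12) : HomW ((Th K) (Pi.single i 1) j) (dB j) 0 := by
  obtain ⟨b, c, rfl⟩ := idx_surj i
  obtain ⟨b', c', rfl⟩ := idx_surj j
  rw [Th_idx, single_idx, single_idx, single_idx, dB_idx, homW_zero_right]
  have hc : ∀ (P : Prop) [Decidable P], ((if P then 1 else 0 : (SB K))).IsHomogeneous 0 := by
    intro P _
    split_ifs
    · exact isHomogeneous_one _ _
    · exact isHomogeneous_zero _ _ _
  have hx := isHomogeneous_X K (idx b' 1)
  have hy := isHomogeneous_X K (idx b' 0)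
  have ht := isHomogeneous_X K (idx b' 2)
  have hE := ((ht.mul (hc (b' = b ∧ (2 : Fin 3) = c))).add
    (hx.mul (hc (b' = b ∧ (1 : Fin 3) = c)))).add (hy.mul (hc (b' = b ∧ (0 : Fin 3) = c)))
  have hX := (hx.mul (hx.sub ht)).mul (hc (b' = b ∧ (1 : Fin 3) = c))
  have hY := ((hy.mul (hy.sub ht)).mul (hy.add ht)).mul (hc (b' = b ∧ (0 : Fin 3) = c))
  fin_cases c'
  · exact (hY.add ((smul_hom 4 hy).mul hX)).add ((q_hom b').mul hE)
  · exact hX.sub ((smul_hom 2 hx).mul hE)
  · exact hE

/-- cofactors -/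
noncomputable def co (f : Fin 12 → (SB K)) : Fin 12 → (SB K) := fun i => ∏ j ∈ Finset.univ.erase i, f j

theorem dg_co (f v : Fin 12 → (SB K)) : dg f (dg (co f) v) = (∏ j, f j) • v := by
  funext i
  rw [dg_apply, dg_apply, Pi.smul_apply, smul_eq_mul, ← mul_assoc, co,
    Finset.mul_prod_erase _ _ (Finset.mem_univ i)]

/-- right inverse of `Th` up to a factor -/
noncomputable def Th' (v : Fin 12 → (SB K)) : Fin 12 → (SB K) := dg (co (f1 K)) ((V1 K) (dg (co (f2 K)) ((V2 K) v)))

theorem Th_Th' (v : Fin 12 → (SB K)) : (Th K) (Th' v) = ((∏ j, (f1 K) j) * ∏ j, (f2 K) j) • v := by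
  rw [Th_apply, Th', dg_co, map_smul, U1_V1, map_smul, map_smul, dg_co, map_smul, U2_V2, smul_smul]

theorem U1_f1_bt (b : Fin 4) (c : Fin 3) (hc : c ≠ 2) (s : K) :
    (U1 K) (dg (f1 K) (cv ((bt K) b c s))) = Pi.single (idx b c) 1 + lin ((bt K) b c s) • Pi.single (idx b 2) 1 := by
  apply ext12
  intro b' c'
  have hcv : ∀ c'', (cv ((bt K) b c s) : Fin 12 → (SB K)) (idx b' c'') =
      C ((if b' = b ∧ c'' = c then 1 else 0) + s * (if b' = b ∧ c'' = 2 then 1 else 0)) := by
    intro c''
    rw [cv, bt_idx]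
  rw [U1_idx, Pi.add_apply, Pi.smul_apply, single_idx, single_idx, lin_bt]
  simp only [dg_apply, f1_idx, hcv]
  have : c = 0 ∨ c = 1 := by
    fin_cases c
    · exact Or.inl rfl
    · exact Or.inr rfl
    · exact absurd rfl hc
  by_cases hb : b' = b
  · subst hb
    rcases this with rfl | rfl
    · fin_cases c'
      · simp
      · simp
      · simp; ring
    · fin_cases c'
      · simp
      · simp
      · simp; ring
  · simp only [hb, false_and, if_false]
    fin_cases c' <;> simp

/-- third step: divisibility in the intermediate frame -/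
theorem dvd_step {ω ω₂ : Alt (Fin 12) K (Fin 12) p} (h : ω ∈ DD (LA K) p k)
    (hω : ω = ω₂.compLinearMap ((U1 K) ∘ₗ dg (f1 K))) (b : Fin 4) (c : Fin 3) (hc : c ≠ 2) (s : K)
    (hL : (bt K) b c s ∈ (LA K)) (u : Fin p → (Fin 12 → (SB K))) (j : Fin p)
    (hu : u j = Pi.single (idx b c) 1) : lin ((bt K) b c s) ∣ ω₂ u := by
  set β := (bt K) b c s with hβ
  have hpr := lin_prime (bt_ne b c hc s)
  set T : (SB K) := ∏ j, (f1 K) j with hT
  have hTn : ¬ lin β ∣ T := by
    intro hd
    obtain ⟨i, _, hi⟩ := (Prime.dvd_finsetProd_iff hpr _).mp hd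
    obtain ⟨b', c', rfl⟩ := idx_surj i
    rw [f1_idx] at hi
    fin_cases c'
    · exact hpr.not_isUnit (isUnit_of_dvd_one hi)
    · exact hpr.not_isUnit (isUnit_of_dvd_one hi)
    · exact not_dvd_t hc hi
  let v : Fin p → (Fin 12 → (SB K)) := fun i => if i = j then cv β else dg (co (f1 K)) ((V1 K) (u i))
  let s' : Fin p → (SB K) := fun i => if i = j then 1 else T
  have h1 : lin β ∣ ω v := h.1 β hL v j (by simp [v])
  have h2 : (fun i => ((U1 K) ∘ₗ dg (f1 K)) (v i)) = fun i => s' i • (Function.update u j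
      (Pi.single (idx b c) 1 + lin β • Pi.single (idx b 2) 1)) i := by
    funext i
    by_cases hij : i = j
    · subst hij
      simp only [v, s', if_true, Function.update_self, one_smul, LinearMap.comp_apply]
      exact U1_f1_bt b c hc s
    · simp only [v, s', if_neg hij, LinearMap.comp_apply, Function.update_of_ne hij]
      rw [dg_co, map_smul, U1_V1]
  have h3 : ω v = (∏ i, s' i) * ω₂ (Function.update u j
      (Pi.single (idx b c) 1 + lin β • Pi.single (idx b 2) 1)) := by
    rw [hω, AlternatingMap.compLinearMap_apply]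
    have e := ω₂.toMultilinearMap.map_smul_univ s' (Function.update u j
      (Pi.single (idx b c) 1 + lin β • Pi.single (idx b 2) 1))
    rw [AlternatingMap.coe_multilinearMap] at e
    rw [smul_eq_mul] at e
    rw [← e]
    exact congrArg ω₂ h2
  rw [h3] at h1
  have h4 : ω₂ (Function.update u j (Pi.single (idx b c) 1 + lin β • Pi.single (idx b 2) 1)) =
      ω₂ u + lin β * ω₂ (Function.update u j (Pi.single (idx b 2) 1)) := by
    rw [ω₂.map_update_add, ω₂.map_update_smul, smul_eq_mul, ← hu, Function.update_eq_self]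
  rcases hpr.dvd_or_dvd h1 with h5 | h5
  · exfalso
    obtain ⟨i, _, hi⟩ := (Prime.dvd_finsetProd_iff hpr _).mp h5
    by_cases hij : i = j
    · simp only [s', if_pos hij] at hi
      exact hpr.not_isUnit (isUnit_of_dvd_one hi)
    · simp only [s', if_neg hij] at hi
      exact hTn hi
  · rw [h4] at h5
    exact (dvd_add_left (dvd_mul_right _ _)).mp h5

theorem comp_comp (ω : Alt (Fin 12) K (Fin 12) p)
    (P Q : (Fin 12 → (SB K)) →ₗ[(SB K)] (Fin 12 → (SB K))) :
    (ω.compLinearMap P).compLinearMap Q = ω.compLinearMap (P ∘ₗ Q) := rfl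

/-- every multi-derivation of the four blocks comes from a form on the frame -/
theorem exists_c (hK2 : (2 : K) ≠ 0) {ω : Alt (Fin 12) K (Fin 12) p} (h : ω ∈ DD (LA K) p k) :
    ∃ c : Alt (Fin 12) K (Fin 12) p, c ∈ WF dB p k 0 ∧ ω = c.compLinearMap (Th K) := by
  have hw : ω ∈ WF (fun _ => 0) p k 0 := DD_le_WF (LA K) p k h
  obtain ⟨ω₁, h1, e1⟩ := exists_diag (f1 K) f1_ne f1_rel (fun _ => 0) w1 f1_hom hw (by
    intro i v j hj
    obtain ⟨b, c, rfl⟩ := idx_surj i
    rw [f1_idx]
    fin_cases c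
    · exact one_dvd _
    · exact one_dvd _
    · change (X (idx b 2) : (SB K)) ∣ ω v
      rw [← lin_ev]
      apply h.1 _ (mem_t b) v j
      rw [hj]
      apply ext12
      intro b' c'
      rw [cv, ev_idx']
      change (Pi.single (idx b 2) 1 : Fin 12 → (SB K)) (idx b' c') = _
      rw [single_idx]
      split_ifs <;> simp)
  have h1' : ω₁ ∈ WF w1 p k 0 := by simpa using h1
  have h2 : ω₁.compLinearMap (V1 K) ∈ WF w1 p k 0 := comp_wt (V1 K) w1 w1 V1_wt h1'
  have e2' : ω = (ω₁.compLinearMap (V1 K)).compLinearMap ((U1 K) ∘ₗ dg (f1 K)) := by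
    rw [comp_comp, ← LinearMap.comp_assoc]
    have : (V1 K) ∘ₗ (U1 K) = LinearMap.id := LinearMap.ext V1_U1
    rw [this, LinearMap.id_comp]
    exact e1
  obtain ⟨ω₃, h3, e3⟩ := exists_diag (f2 K) f2_ne f2_rel w1 e2 f2_hom h2 (by
    intro i u j hj
    obtain ⟨b, c, rfl⟩ := idx_surj i
    fin_cases c
    · change (f2 K) (idx b 0) ∣ _
      rw [f2_zero]
      have d0 := dvd_step h e2' b 0 (by decide) 0 (mem_y0 b) u j hj
      have d1 := dvd_step h e2' b 0 (by decide) (-1) (mem_y1 b) u j hj
      have d2 := dvd_step h e2' b 0 (by decide) 1 (mem_y2 b) u j hj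
      have r01 : IsRelPrime (lin ((bt K) b 0 0)) (lin ((bt K) b 0 (-1))) :=
        relprime_bt (by decide) (by decide) (fun _ _ => by norm_num)
      have r02 : IsRelPrime (lin ((bt K) b 0 0)) (lin ((bt K) b 0 1)) :=
        relprime_bt (by decide) (by decide) (fun _ _ => by norm_num)
      have r12 : IsRelPrime (lin ((bt K) b 0 (-1))) (lin ((bt K) b 0 1)) :=
        relprime_bt (by decide) (by decide) (fun _ _ h => hK2 (by linear_combination -h))
      exact (r02.mul_left r12).mul_dvd (r01.mul_dvd d0 d1) d2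
    · change (f2 K) (idx b 1) ∣ _
      rw [f2_one]
      have d0 := dvd_step h e2' b 1 (by decide) 0 (mem_x0 b) u j hj
      have d1 := dvd_step h e2' b 1 (by decide) (-1) (mem_x1 b) u j hj
      have r01 : IsRelPrime (lin ((bt K) b 1 0)) (lin ((bt K) b 1 (-1))) :=
        relprime_bt (by decide) (by decide) (fun _ _ => by norm_num)
      exact r01.mul_dvd d0 d1
    · change (f2 K) (idx b 2) ∣ _
      rw [f2_idx]
      exact one_dvd _)
  rw [w1_add_e2] at h3
  refine ⟨ω₃.compLinearMap (V2 K), comp_wt (V2 K) dB dB V2_wt h3, ?_⟩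
  rw [comp_comp, Th, ← LinearMap.comp_assoc]
  have : (V2 K) ∘ₗ (U2 K) = LinearMap.id := LinearMap.ext V2_U2
  rw [this, LinearMap.id_comp]
  rw [e2', e3, comp_comp]

variable (K) in
/-- composition with `Th` as a linear map -/
noncomputable def cTh (p : ℕ) : Alt (Fin 12) K (Fin 12) p →ₗ[K] Alt (Fin 12) K (Fin 12) p where
  toFun c := c.compLinearMap (Th K)
  map_add' _ _ := rfl
  map_smul' _ _ := rfl

theorem D_ne : ((∏ j, (f1 K) j) * ∏ j, (f2 K) j) ≠ 0 :=
  mul_ne_zero (Finset.prod_ne_zero_iff.mpr fun i _ => f1_ne i)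
    (Finset.prod_ne_zero_iff.mpr fun i _ => f2_ne i)

/-- vanishing of a form on the frame, tested on the image of `Th` -/
theorem zero_of_comp (c : Alt (Fin 12) K (Fin 12) p) (u : Fin p → (Fin 12 → (SB K)))
    (v : Fin p → (Fin 12 → (SB K))) (s : Fin p → (SB K)) (hs : ∀ i, s i ≠ 0)
    (h : ∀ i, (Th K) (v i) = s i • u i) (h0 : c.compLinearMap (Th K) v = 0) : c u = 0 := by
  rw [AlternatingMap.compLinearMap_apply] at h0
  have e := c.toMultilinearMap.map_smul_univ s u
  rw [AlternatingMap.coe_multilinearMap, smul_eq_mul] at e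
  have h1 : (fun i => (Th K) (v i)) = fun i => s i • u i := funext h
  have h2 : c (fun i => s i • u i) = 0 := by rw [← h1]; exact h0
  rw [h2] at e
  exact (mul_eq_zero.mp e.symm).resolve_left (Finset.prod_ne_zero_iff.mpr fun i _ => hs i)

theorem cTh_inj : Function.Injective ((cTh K) p) := by
  rw [← LinearMap.ker_eq_bot, LinearMap.ker_eq_bot']
  intro c hc
  refine AlternatingMap.ext fun u => ?_
  rw [AlternatingMap.zero_apply]
  apply zero_of_comp c u (fun i => Th' (u i)) (fun _ => (∏ j, (f1 K) j) * ∏ j, (f2 K) j)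
    (fun _ => D_ne) (fun i => Th_Th' (u i))
  have : (cTh K) p c = c.compLinearMap (Th K) := rfl
  rw [← this, hc]
  rfl

theorem main_frame (hK2 : (2 : K) ≠ 0) : StFrame K := by
  intro p k
  have hmap : (KZ (φB K) dB p k).map ((cTh K) p) = HD (LB K) (aB K) p k := by
    ext ω
    rw [Submodule.mem_map]
    constructor
    · rintro ⟨c, hc, rfl⟩
      have hkill : ∀ (v : Fin p → (Fin 12 → (SB K))) (j : Fin p), v j = cv (aB K) →
          (cTh K) p c v = 0 := by
        intro v j hj
        change c (fun i => (Th K) (v i)) = 0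
        exact hc.2 _ j (by simp only [hj, Th_aB])
      refine ⟨⟨?_, ?_⟩, hkill⟩
      · intro β hβ v j hj
        rcases hβ with rfl | hβ
        · rw [hkill v j hj]; exact dvd_zero _
        · choose u hu using dvd_Th hβ
          have h1 : (Th K) (v j) = lin β • u := by
            funext i
            rw [hj, hu i]
            rfl
          change lin β ∣ c (fun i => (Th K) (v i))
          have h2 : (fun i => (Th K) (v i)) = Function.update (fun i => (Th K) (v i)) j (lin β • u) := by
            rw [← h1, Function.update_eq_self]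
          rw [h2, c.map_update_smul]
          exact dvd_mul_right _ _
      · intro w
        have h1 := comp_wt (Th K) (fun _ => 0) dB Th_wt (KZ_le_WF (φB K) dB p k hc) w
        have e : (0 + ∑ j : Fin p, (fun _ : Fin 12 => 0) (w j)) = 0 := by simp
        rw [e, homW_zero_right] at h1
        exact h1
    · intro h
      have hA : ω ∈ DD (LA K) p k :=
        ⟨fun α hα => h.1.1 α (Set.mem_insert_of_mem _ hα), h.1.2⟩
      obtain ⟨c, hc, rfl⟩ := exists_c hK2 hA
      refine ⟨c, ⟨fun w => by have := hc w; rwa [zero_add] at this, ?_⟩, rfl⟩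
      intro u j hj
      apply zero_of_comp c u (fun i => if i = j then cv (aB K) else Th' (u i))
        (fun i => if i = j then 1 else (∏ j, (f1 K) j) * ∏ j, (f2 K) j)
      · intro i
        split_ifs
        · exact one_ne_zero
        · exact D_ne
      · intro i
        split_ifs with hij
        · rw [Th_aB, one_smul, hij, hj]
        · exact Th_Th' (u i)
      · exact h.2 _ j (by simp)
  rw [← hmap]
  exact (Submodule.equivMapOfInjective ((cTh K) p) cTh_inj _).symm.finrank_eq

end Pool.Agent.H67ST.FR
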