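import Pool.Agent.helper67ST.Defs
import Pool.Graph.R_seed8.W958.ST.Diag

/-!
# The frame of the four blocks (project ST)
-/

set_option autoImplicit false

namespace Pool.Agent.H67ST.FR

open MvPolynomial Pool.Agent.W958.ST

variable {K : Type} [Field K]

variable (K) in
/-- the coordinate ring of `B` -/
abbrev SB : Type := MvPolynomial (Fin 12) K

theorem idx_surj (i : Fin 12) : ∃ b c, i = idx b c :=
  ⟨⟨i.1 / 3, by omega⟩, ⟨i.1 % 3, by omega⟩, by simp only [idx, Fin.ext_iff]; omega⟩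

theorem idx_inj {b b' : Fin 4} {c c' : Fin 3} (h : idx b c = idx b' c') : b = b' ∧ c = c' := by
  simp only [idx, Fin.ext_iff] at h
  constructor
  · apply Fin.ext; omega
  · apply Fin.ext; omega

theorem idx_eq_iff (b b' : Fin 4) (c c' : Fin 3) : idx b c = idx b' c' ↔ b = b' ∧ c = c' :=
  ⟨idx_inj, by rintro ⟨rfl, rfl⟩; rfl⟩

/-- vector with given block coordinates -/
def mk12 {A : Type} (g : Fin 4 → Fin 3 → A) : Fin 12 → A :=
  fun i => g ⟨i.1 / 3, by omega⟩ ⟨i.1 % 3, by omega⟩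

theorem mk12_idx {A : Type} (g : Fin 4 → Fin 3 → A) (b : Fin 4) (c : Fin 3) :
    mk12 g (idx b c) = g b c := by
  unfold mk12
  have h1 : (⟨(idx b c).1 / 3, by omega⟩ : Fin 4) = b := by
    apply Fin.ext; simp only [idx]; omega
  have h2 : (⟨(idx b c).1 % 3, by omega⟩ : Fin 3) = c := by
    apply Fin.ext; simp only [idx]; omega
  rw [h1, h2]

theorem ext12 {A : Type} {u v : Fin 12 → A} (h : ∀ b c, u (idx b c) = v (idx b c)) : u = v := by
  funext i
  obtain ⟨b, c, rfl⟩ := idx_surj i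
  exact h b c

variable (K) in
/-- `y_b` -/
noncomputable abbrev yb (b : Fin 4) : (SB K) := X (idx b 0)
variable (K) in
/-- `x_b` -/
noncomputable abbrev xb (b : Fin 4) : (SB K) := X (idx b 1)
variable (K) in
/-- `t_b` -/
noncomputable abbrev tb (b : Fin 4) : (SB K) := X (idx b 2)
variable (K) in
/-- `al_b = t_b - 2 x_b + 2 y_b` -/
noncomputable abbrev al (b : Fin 4) : (SB K) := (tb K) b - 2 * (xb K) b + 2 * (yb K) b

variable (K) in
/-- first diagonal -/
noncomputable def f1 : Fin 12 → (SB K) := mk12 fun b => ![1, 1, (tb K) b]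
variable (K) in
/-- second diagonal -/
noncomputable def f2 : Fin 12 → (SB K) :=
  mk12 fun b => ![(yb K) b * ((yb K) b - (tb K) b) * ((yb K) b + (tb K) b), (xb K) b * ((xb K) b - (tb K) b), 1]

variable (K) in
/-- first unimodular change -/
noncomputable def U1 : (Fin 12 → (SB K)) →ₗ[(SB K)] (Fin 12 → (SB K)) where
  toFun v := mk12 fun b => ![v (idx b 0), v (idx b 1),
    v (idx b 2) + (xb K) b * v (idx b 1) + (yb K) b * v (idx b 0)]
  map_add' u v := by
    apply ext12
    intro b c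
    rw [Pi.add_apply, mk12_idx, mk12_idx, mk12_idx]
    fin_cases c <;> simp <;> ring
  map_smul' r v := by
    apply ext12
    intro b c
    rw [Pi.smul_apply, mk12_idx, mk12_idx]
    fin_cases c <;> simp <;> ring

variable (K) in
/-- its inverse -/
noncomputable def V1 : (Fin 12 → (SB K)) →ₗ[(SB K)] (Fin 12 → (SB K)) where
  toFun v := mk12 fun b => ![v (idx b 0), v (idx b 1),
    v (idx b 2) - (xb K) b * v (idx b 1) - (yb K) b * v (idx b 0)]
  map_add' u v := by
    apply ext12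
    intro b c
    rw [Pi.add_apply, mk12_idx, mk12_idx, mk12_idx]
    fin_cases c <;> simp <;> ring
  map_smul' r v := by
    apply ext12
    intro b c
    rw [Pi.smul_apply, mk12_idx, mk12_idx]
    fin_cases c <;> simp <;> ring

variable (K) in
/-- second unimodular change -/
noncomputable def U2 : (Fin 12 → (SB K)) →ₗ[(SB K)] (Fin 12 → (SB K)) where
  toFun v := mk12 fun b => ![v (idx b 0) + 4 * (yb K) b * v (idx b 1) +
      2 * (yb K) b * ((al K) b - 4 * (yb K) b) * v (idx b 2), v (idx b 1) - 2 * (xb K) b * v (idx b 2), v (idx b 2)]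
  map_add' u v := by
    apply ext12
    intro b c
    rw [Pi.add_apply, mk12_idx, mk12_idx, mk12_idx]
    fin_cases c <;> simp <;> ring
  map_smul' r v := by
    apply ext12
    intro b c
    rw [Pi.smul_apply, mk12_idx, mk12_idx]
    fin_cases c <;> simp <;> ring

variable (K) in
/-- its inverse -/
noncomputable def V2 : (Fin 12 → (SB K)) →ₗ[(SB K)] (Fin 12 → (SB K)) where
  toFun v := mk12 fun b => ![v (idx b 0) - 4 * (yb K) b * v (idx b 1) -
      (8 * (xb K) b * (yb K) b + 2 * (yb K) b * ((al K) b - 4 * (yb K) b)) * v (idx b 2),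
      v (idx b 1) + 2 * (xb K) b * v (idx b 2), v (idx b 2)]
  map_add' u v := by
    apply ext12
    intro b c
    rw [Pi.add_apply, mk12_idx, mk12_idx, mk12_idx]
    fin_cases c <;> simp <;> ring
  map_smul' r v := by
    apply ext12
    intro b c
    rw [Pi.smul_apply, mk12_idx, mk12_idx]
    fin_cases c <;> simp <;> ring

theorem U1_idx (v : Fin 12 → (SB K)) (b : Fin 4) (c : Fin 3) : (U1 K) v (idx b c) =
    (![v (idx b 0), v (idx b 1),
      v (idx b 2) + (xb K) b * v (idx b 1) + (yb K) b * v (idx b 0)] : Fin 3 → (SB K)) c :=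
  mk12_idx (fun b => ![v (idx b 0), v (idx b 1),
    v (idx b 2) + (xb K) b * v (idx b 1) + (yb K) b * v (idx b 0)]) b c

theorem V1_idx (v : Fin 12 → (SB K)) (b : Fin 4) (c : Fin 3) : (V1 K) v (idx b c) =
    (![v (idx b 0), v (idx b 1),
      v (idx b 2) - (xb K) b * v (idx b 1) - (yb K) b * v (idx b 0)] : Fin 3 → (SB K)) c :=
  mk12_idx (fun b => ![v (idx b 0), v (idx b 1),
    v (idx b 2) - (xb K) b * v (idx b 1) - (yb K) b * v (idx b 0)]) b c

theorem U2_idx (v : Fin 12 → (SB K)) (b : Fin 4) (c : Fin 3) : (U2 K) v (idx b c) =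
    (![v (idx b 0) + 4 * (yb K) b * v (idx b 1) +
      2 * (yb K) b * ((al K) b - 4 * (yb K) b) * v (idx b 2), v (idx b 1) - 2 * (xb K) b * v (idx b 2),
      v (idx b 2)] : Fin 3 → (SB K)) c :=
  mk12_idx (fun b => ![v (idx b 0) + 4 * (yb K) b * v (idx b 1) +
      2 * (yb K) b * ((al K) b - 4 * (yb K) b) * v (idx b 2), v (idx b 1) - 2 * (xb K) b * v (idx b 2),
      v (idx b 2)]) b c

theorem V2_idx (v : Fin 12 → (SB K)) (b : Fin 4) (c : Fin 3) : (V2 K) v (idx b c) =
    (![v (idx b 0) - 4 * (yb K) b * v (idx b 1) -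
      (8 * (xb K) b * (yb K) b + 2 * (yb K) b * ((al K) b - 4 * (yb K) b)) * v (idx b 2),
      v (idx b 1) + 2 * (xb K) b * v (idx b 2), v (idx b 2)] : Fin 3 → (SB K)) c :=
  mk12_idx (fun b => ![v (idx b 0) - 4 * (yb K) b * v (idx b 1) -
      (8 * (xb K) b * (yb K) b + 2 * (yb K) b * ((al K) b - 4 * (yb K) b)) * v (idx b 2),
      v (idx b 1) + 2 * (xb K) b * v (idx b 2), v (idx b 2)]) b c

theorem U1_V1 (v : Fin 12 → (SB K)) : (U1 K) ((V1 K) v) = v := by
  apply ext12
  intro b c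
  rw [U1_idx, V1_idx, V1_idx, V1_idx]
  fin_cases c
  · rfl
  · rfl
  · simp only [Fin.reduceFinMk, Matrix.cons_val]
    ring

theorem V1_U1 (v : Fin 12 → (SB K)) : (V1 K) ((U1 K) v) = v := by
  apply ext12
  intro b c
  rw [V1_idx, U1_idx, U1_idx, U1_idx]
  fin_cases c
  · rfl
  · rfl
  · simp only [Fin.reduceFinMk, Matrix.cons_val]
    ring

theorem U2_V2 (v : Fin 12 → (SB K)) : (U2 K) ((V2 K) v) = v := by
  apply ext12
  intro b c
  rw [U2_idx, V2_idx, V2_idx, V2_idx]
  fin_cases c <;> simp only [Fin.reduceFinMk, Matrix.cons_val, Fin.zero_eta, Fin.mk_one] <;> ring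

theorem V2_U2 (v : Fin 12 → (SB K)) : (V2 K) ((U2 K) v) = v := by
  apply ext12
  intro b c
  rw [V2_idx, U2_idx, U2_idx, U2_idx]
  fin_cases c <;> simp only [Fin.reduceFinMk, Matrix.cons_val, Fin.zero_eta, Fin.mk_one] <;> ring

variable (K) in
/-- the frame map -/
noncomputable def Th : (Fin 12 → (SB K)) →ₗ[(SB K)] (Fin 12 → (SB K)) := (U2 K) ∘ₗ dg (f2 K) ∘ₗ (U1 K) ∘ₗ dg (f1 K)

theorem Th_apply (v : Fin 12 → (SB K)) : (Th K) v = (U2 K) (dg (f2 K) ((U1 K) (dg (f1 K) v))) := rfl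

theorem Th_idx (v : Fin 12 → (SB K)) (b : Fin 4) (c : Fin 3) : (Th K) v (idx b c) =
    (![(yb K) b * ((yb K) b - (tb K) b) * ((yb K) b + (tb K) b) * v (idx b 0) +
        4 * (yb K) b * ((xb K) b * ((xb K) b - (tb K) b) * v (idx b 1)) +
        2 * (yb K) b * ((al K) b - 4 * (yb K) b) *
          ((tb K) b * v (idx b 2) + (xb K) b * v (idx b 1) + (yb K) b * v (idx b 0)),
      (xb K) b * ((xb K) b - (tb K) b) * v (idx b 1) - 2 * (xb K) b *
          ((tb K) b * v (idx b 2) + (xb K) b * v (idx b 1) + (yb K) b * v (idx b 0)),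
      (tb K) b * v (idx b 2) + (xb K) b * v (idx b 1) + (yb K) b * v (idx b 0)] : Fin 3 → (SB K)) c := by
  rw [Th_apply, U2_idx]
  simp only [dg_apply, U1_idx, f1, f2, mk12_idx]
  fin_cases c <;> simp only [Fin.reduceFinMk, Matrix.cons_val, Fin.zero_eta, Fin.mk_one] <;> ring

theorem ev_idx' (b b' : Fin 4) (c c' : Fin 3) :
    (ev K) b c (idx b' c') = if b' = b ∧ c' = c then 1 else 0 := by
  simp only [ev, Pi.single_apply, idx_eq_iff]

theorem aB_idx (b : Fin 4) (c : Fin 3) : (aB K) (idx b c) = (![2, -2, 1] : Fin 3 → K) c := by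
  have h : ∀ b', ((ev K) b' 2 - 2 • (ev K) b' 1 + 2 • (ev K) b' 0 : Fin 12 → K) (idx b c) =
      if b' = b then (![2, -2, 1] : Fin 3 → K) c else 0 := by
    intro b'
    simp only [Pi.add_apply, Pi.sub_apply, Pi.smul_apply, ev_idx']
    by_cases hb : b = b'
    · subst hb
      fin_cases c <;> simp
    · have hb' : ¬ b' = b := fun h => hb h.symm
      simp [hb, hb']
  unfold aB
  rw [Finset.sum_apply, Finset.sum_congr rfl fun b' _ => h b']
  simp

theorem φB_idx (b : Fin 4) (c : Fin 3) : (φB K) (idx b c) =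
    (![-6 * (yb K) b ^ 3, 2 * (xb K) b ^ 2 - 4 * (xb K) b * (yb K) b, (al K) b] : Fin 3 → (SB K)) c := by
  have h1 : (⟨(idx b c).1 / 3, by omega⟩ : Fin 4) = b := by
    apply Fin.ext; simp only [idx]; omega
  have h2 : (idx b c).1 % 3 = c.1 := by simp only [idx]; omega
  unfold φB
  simp only [h1, h2]
  fin_cases c <;> simp

theorem Th_aB : (Th K) (cv (aB K)) = (φB K) := by
  apply ext12
  intro b c
  rw [Th_idx, φB_idx]
  simp only [cv, aB_idx]
  fin_cases c
  · simp only [Fin.reduceFinMk, Matrix.cons_val, Fin.zero_eta, Fin.mk_one, map_neg, map_ofNat, map_one]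
    ring
  · simp only [Fin.reduceFinMk, Matrix.cons_val, Fin.zero_eta, Fin.mk_one, map_neg, map_ofNat, map_one]
    ring
  · simp only [Fin.reduceFinMk, Matrix.cons_val, Fin.zero_eta, Fin.mk_one, map_neg, map_ofNat, map_one]
    ring

end Pool.Agent.H67ST.FR
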