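import Pool.Agent.helper67ST.Defs

/-!
ST-9: the product arrangement is not free.
-/

set_option autoImplicit false

namespace Pool.Agent.H67ST.STN

open MvPolynomial Pool.Agent.W958.ST

variable {K : Type} [Field K] {N : ℕ}

variable (K N) in
abbrev S := MvPolynomial (Fin (4 + N)) K

theorem dual_lin {n : ℕ} (α : Fin n → K) (i : Fin n) :
    (∑ i, α i • (LinearMap.proj i : (Fin n → K) →ₗ[K] K)) (Pi.single i 1) = α i := by
  classical
  simp [LinearMap.sum_apply, Pi.single_apply]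

theorem der_C_mul (θ : Derivation K (S K N) (S K N)) (c : K) (f : (S K N)) : θ (C c * f) = C c * θ f := by
  rw [θ.leibniz, derivation_C, smul_zero, add_zero, smul_eq_mul]

/-- condition of an element of `FD A` on the linear forms -/
theorem FD_dvd {A : Finset (Submodule K (Fin (4 + N) → K))} {L : Set (Fin (4 + N) → K)}
    (hA : ∀ H, H ∈ A ↔ ∃ α ∈ L, H = hyp α) {θ : Derivation K (S K N) (S K N)} (hθ : θ ∈ FD A)
    {α : Fin (4 + N) → K} (hα : α ∈ L) : lin α ∣ θ (lin α) := by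
  have h := hθ (hyp α) ((hA _).2 ⟨α, hα, rfl⟩)
    (∑ i, α i • (LinearMap.proj i : (Fin (4 + N) → K) →ₗ[K] K)) rfl
  have h2 : (∑ i : Fin (4 + N), MvPolynomial.C
      ((∑ i, α i • (LinearMap.proj i : (Fin (4 + N) → K) →ₗ[K] K)) (Pi.single i 1)) *
        MvPolynomial.X i : (S K N)) = lin α := by
    unfold lin
    exact Finset.sum_congr rfl fun i _ => by rw [dual_lin]
  rw [h2] at h
  exact h

theorem mem_FD {A : Finset (Submodule K (Fin (4 + N) → K))} {L : Set (Fin (4 + N) → K)}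
    (hA : ∀ H, H ∈ A ↔ ∃ α ∈ L, H = hyp α) {θ : Derivation K (S K N) (S K N)}
    (h : ∀ α ∈ L, lin α ∣ θ (lin α)) : θ ∈ FD A := by
  classical
  intro H hH a ha
  obtain ⟨α, hα, rfl⟩ := (hA H).1 hH
  obtain ⟨s, hs⟩ : ∃ s : K, ∀ i, a (Pi.single i 1) = s * α i := by
    by_cases h0 : α = 0
    · refine ⟨0, fun i => ?_⟩
      have h1 : (Pi.single i 1 : Fin (4 + N) → K) ∈ LinearMap.ker a := by
        rw [ha, hyp, LinearMap.mem_ker, dual_lin, h0]
        rfl
      rw [LinearMap.mem_ker] at h1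
      rw [h1, zero_mul]
    · obtain ⟨i0, hi0⟩ : ∃ i0, α i0 ≠ 0 := by
        by_contra hcon
        push Not at hcon
        exact h0 (funext hcon)
      refine ⟨a (Pi.single i0 1) / α i0, fun i => ?_⟩
      have h1 : (α i0 • Pi.single i 1 - α i • Pi.single i0 1 : Fin (4 + N) → K) ∈
          LinearMap.ker a := by
        rw [ha, hyp, LinearMap.mem_ker, map_sub, map_smul, map_smul, dual_lin, dual_lin]
        simp only [smul_eq_mul]
        ring
      rw [LinearMap.mem_ker, map_sub, map_smul, map_smul, smul_eq_mul, smul_eq_mul,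
        sub_eq_zero] at h1
      rw [div_mul_eq_mul_div, eq_div_iff hi0]
      linear_combination h1
  have h2 : (∑ i : Fin (4 + N), MvPolynomial.C (a (Pi.single i 1)) * MvPolynomial.X i : (S K N)) =
      C s * lin α := by
    unfold lin
    rw [Finset.mul_sum]
    exact Finset.sum_congr rfl fun i _ => by rw [hs, C_mul, mul_assoc]
  rw [h2, der_C_mul]
  exact mul_dvd_mul_left _ (h α hα)

/-- value of a derivation on a linear form -/
theorem der_lin (θ : Derivation K (S K N) (S K N)) (α : Fin (4 + N) → K) :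
    θ (lin α) = ∑ i, C (α i) * θ (X i) := by
  unfold lin
  rw [map_sum]
  exact Finset.sum_congr rfl fun i _ => by rw [der_C_mul]

variable (K N) in
/-- the four variables -/
noncomputable def v4 (k : Fin 4) : (S K N) := X (Fin.castAdd N k)

theorem lin_append (α : Fin 4 → K) : (lin (Fin.append α (0 : Fin N → K)) : (S K N)) =
    ∑ k, C (α k) * (v4 K N) k := by
  unfold lin v4
  rw [Fin.sum_univ_add]
  simp

theorem der_append (θ : Derivation K (S K N) (S K N)) (α : Fin 4 → K) :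
    θ (lin (Fin.append α (0 : Fin N → K))) = ∑ k, C (α k) * θ ((v4 K N) k) := by
  rw [lin_append, map_sum]
  exact Finset.sum_congr rfl fun i _ => by rw [der_C_mul]

variable (K N) in
/-- the derivation `θ_j` -/
noncomputable def th (j : Fin 4) : Derivation K (S K N) (S K N) :=
  mkDerivation K (Fin.append ![tha ((v4 K N) 0) ((v4 K N) 1) ((v4 K N) 2) ((v4 K N) 3) j, thb ((v4 K N) 0) ((v4 K N) 1) ((v4 K N) 2) ((v4 K N) 3) j,
    thc ((v4 K N) 0) ((v4 K N) 1) ((v4 K N) 2) ((v4 K N) 3) j, 0] (0 : Fin N → (S K N)))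

theorem th_v4 (j k : Fin 4) : (th K N) j ((v4 K N) k) = ![tha ((v4 K N) 0) ((v4 K N) 1) ((v4 K N) 2) ((v4 K N) 3) j,
    thb ((v4 K N) 0) ((v4 K N) 1) ((v4 K N) 2) ((v4 K N) 3) j, thc ((v4 K N) 0) ((v4 K N) 1) ((v4 K N) 2) ((v4 K N) 3) j, 0] k := by
  have h : (th K N) j (X (Fin.castAdd N k)) = ![tha ((v4 K N) 0) ((v4 K N) 1) ((v4 K N) 2) ((v4 K N) 3) j,
      thb ((v4 K N) 0) ((v4 K N) 1) ((v4 K N) 2) ((v4 K N) 3) j, thc ((v4 K N) 0) ((v4 K N) 1) ((v4 K N) 2) ((v4 K N) 3) j, 0] k := by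
    unfold th
    rw [mkDerivation_X, Fin.append_left]
  exact h

theorem th_nat (j : Fin 4) (k : Fin N) : (th K N) j (X (Fin.natAdd 4 k)) = 0 := by
  unfold th
  rw [mkDerivation_X, Fin.append_right]
  rfl

/-- the divisibility conditions for the nine planes of `T` -/
def Cond (u v w z : (S K N)) : Prop :=
  (v4 K N) 0 ∣ u ∧ (v4 K N) 1 ∣ v ∧ (v4 K N) 2 ∣ w ∧ (v4 K N) 3 ∣ z ∧ ((v4 K N) 0 + (v4 K N) 1) ∣ (u + v) ∧ ((v4 K N) 2 + (v4 K N) 3) ∣ (w + z) ∧
    ((v4 K N) 0 + (v4 K N) 2) ∣ (u + w) ∧ ((v4 K N) 1 + (v4 K N) 3) ∣ (v + z) ∧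
    ((v4 K N) 0 + (v4 K N) 1 + (v4 K N) 2 + (v4 K N) 3) ∣ (u + v + w + z)

theorem cond_iff (θ : Derivation K (S K N) (S K N)) : (∀ α ∈ (LT K), lin (Fin.append α (0 : Fin N → K)) ∣
    θ (lin (Fin.append α (0 : Fin N → K)))) ↔ Cond (θ ((v4 K N) 0)) (θ ((v4 K N) 1)) (θ ((v4 K N) 2)) (θ ((v4 K N) 3)) := by
  unfold LT Cond
  simp only [Set.mem_insert_iff, Set.mem_singleton_iff, forall_eq_or_imp, forall_eq,
    lin_append, Fin.sum_univ_four]
  simp

theorem cond_of {a b c d u v w : (S K N)} (h1 : a ∣ u) (h2 : b ∣ v) (h3 : c ∣ w) (h5 : (a + b) ∣ (u + v))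
    (h6 : (c + d) ∣ w) (h7 : (a + c) ∣ (u + w)) (h8 : (b + d) ∣ v)
    (h9 : (a + b + c + d) ∣ (u + v + w)) : a ∣ u ∧ b ∣ v ∧ c ∣ w ∧ d ∣ (0 : (S K N)) ∧ (a + b) ∣ (u + v) ∧
      (c + d) ∣ (w + 0) ∧ (a + c) ∣ (u + w) ∧ (b + d) ∣ (v + 0) ∧
      (a + b + c + d) ∣ (u + v + w + 0) := by
  rw [add_zero, add_zero, add_zero]
  exact ⟨h1, h2, h3, dvd_zero _, h5, h6, h7, h8, h9⟩

theorem cond_th (j : Fin 4) : Cond ((th K N) j ((v4 K N) 0)) ((th K N) j ((v4 K N) 1)) ((th K N) j ((v4 K N) 2)) ((th K N) j ((v4 K N) 3)) := by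
  unfold Cond
  rw [th_v4, th_v4, th_v4, th_v4]
  generalize (v4 K N) 0 = a
  generalize (v4 K N) 1 = b
  generalize (v4 K N) 2 = c
  generalize (v4 K N) 3 = d
  fin_cases j
  · refine cond_of ⟨-(2 * b * c + 2 * c * d + 2 * b * d + a * d + d * d), ?_⟩
      ⟨-((b + d) * (2 * c + d)), ?_⟩ ⟨-((c + d) * (2 * b + d)), ?_⟩
      ⟨-(2 * b * c + 2 * c * d + d * d + d * (a + b)), ?_⟩ ⟨-(c * (2 * b + d)), ?_⟩
      ⟨-(2 * b * c + 2 * b * d + d * d + d * (a + c)), ?_⟩ ⟨-(b * (2 * c + d)), ?_⟩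
      ⟨-(2 * b * c + a * d + b * d + c * d), ?_⟩ <;>
    simp [tha, thb, thc] <;> ring
  · refine cond_of ⟨c * (a - d), ?_⟩ ⟨-(c * (b + d)), ?_⟩ ⟨(c + d) * (2 * a + c), ?_⟩
      ⟨c * (a - b - d), ?_⟩ ⟨c * (2 * a + c), ?_⟩ ⟨c * (a + c + d), ?_⟩ ⟨-(b * c), ?_⟩
      ⟨c * (a + c - b), ?_⟩ <;>
    simp [tha, thb, thc] <;> ring
  · refine cond_of ⟨b * (a - d), ?_⟩ ⟨(b + d) * (2 * a + b), ?_⟩ ⟨-(b * (c + d)), ?_⟩
      ⟨b * (a + b + d), ?_⟩ ⟨-(b * c), ?_⟩ ⟨b * (a - c - d), ?_⟩ ⟨b * (2 * a + b), ?_⟩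
      ⟨b * (a + b - c), ?_⟩ <;>
    simp [tha, thb, thc] <;> ring
  · refine cond_of ⟨a * (b + d) + (a + 2 * c) * (a + b), ?_⟩ ⟨a * (b + d), ?_⟩ ⟨a * (c + d), ?_⟩
      ⟨a * (a + b + 2 * c + d), ?_⟩ ⟨a * c, ?_⟩ ⟨a * (a + c + 2 * b + d), ?_⟩ ⟨a * b, ?_⟩
      ⟨a * (a + b + c), ?_⟩ <;>
    simp [tha, thb, thc] <;> ring

variable (K N) in
/-- the vector of the four variables -/
noncomputable def xv : Fin 4 → (S K N) := (v4 K N)

theorem v4_ne (k : Fin 4) : (v4 K N) k ≠ 0 := X_ne_zero _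

/-- `f`, `g` represent `θ`: on the four variables `θ = g θ_E + ∑ f_j θ_j` -/
def Rep (θ : Derivation K (S K N) (S K N)) (g : (S K N)) (f : Fin 4 → (S K N)) : Prop :=
  θ ((v4 K N) 3) = g * (v4 K N) 3 ∧
  θ ((v4 K N) 0) = g * (v4 K N) 0 + ∑ j, f j * tha ((v4 K N) 0) ((v4 K N) 1) ((v4 K N) 2) ((v4 K N) 3) j ∧
  θ ((v4 K N) 1) = g * (v4 K N) 1 + ∑ j, f j * thb ((v4 K N) 0) ((v4 K N) 1) ((v4 K N) 2) ((v4 K N) 3) j ∧
  θ ((v4 K N) 2) = g * (v4 K N) 2 + ∑ j, f j * thc ((v4 K N) 0) ((v4 K N) 1) ((v4 K N) 2) ((v4 K N) 3) j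

theorem Rep.add {θ θ' : Derivation K (S K N) (S K N)} {g g' : (S K N)} {f f' : Fin 4 → (S K N)} (h : Rep θ g f)
    (h' : Rep θ' g' f') : Rep (θ + θ') (g + g') (f + f') := by
  obtain ⟨h1, h2, h3, h4⟩ := h
  obtain ⟨k1, k2, k3, k4⟩ := h'
  refine ⟨?_, ?_, ?_, ?_⟩ <;>
    simp only [Derivation.add_apply, h1, h2, h3, h4, k1, k2, k3, k4, Pi.add_apply, add_mul,
      Finset.sum_add_distrib] <;> ring

theorem Rep.smul {θ : Derivation K (S K N) (S K N)} {g : (S K N)} {f : Fin 4 → (S K N)} (s : (S K N)) (h : Rep θ g f) :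
    Rep (s • θ) (s * g) (s • f) := by
  obtain ⟨h1, h2, h3, h4⟩ := h
  refine ⟨?_, ?_, ?_, ?_⟩ <;>
    simp only [Derivation.smul_apply, h1, h2, h3, h4, Pi.smul_apply, smul_eq_mul, mul_add,
      mul_assoc, ← Finset.mul_sum]

theorem inj4 : Function.Injective (Fin.castAdd N : Fin 4 → Fin (4 + N)) :=
  Fin.castAdd_injective 4 N

theorem Rep.exists (h : (StTS K)) {θ : Derivation K (S K N) (S K N)}
    (hθ : Cond (θ ((v4 K N) 0)) (θ ((v4 K N) 1)) (θ ((v4 K N) 2)) (θ ((v4 K N) 3))) : ∃ g f, Rep θ g f := by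
  obtain ⟨h1, h2, h3, ⟨g, h4⟩, h5, h6, h7, h8, h9⟩ := hθ
  obtain ⟨f, hf1, hf2, hf3⟩ := (h (Fin (4 + N)) (Fin.castAdd N) inj4 ((v4 K N) 0) ((v4 K N) 1) ((v4 K N) 2) ((v4 K N) 3)
    rfl rfl rfl rfl).1 (θ ((v4 K N) 0) - g * (v4 K N) 0) (θ ((v4 K N) 1) - g * (v4 K N) 1) (θ ((v4 K N) 2) - g * (v4 K N) 2)
    (dvd_sub h1 (Dvd.intro_left _ rfl)) (dvd_sub h2 (Dvd.intro_left _ rfl))
    (by
      have : θ ((v4 K N) 1) - g * (v4 K N) 1 = (θ ((v4 K N) 1) + θ ((v4 K N) 3)) - g * ((v4 K N) 1 + (v4 K N) 3) := by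
        rw [h4]; ring
      rw [this]
      exact dvd_sub h8 (Dvd.intro_left _ rfl))
    (dvd_sub h3 (Dvd.intro_left _ rfl))
    (by
      have : θ ((v4 K N) 2) - g * (v4 K N) 2 = (θ ((v4 K N) 2) + θ ((v4 K N) 3)) - g * ((v4 K N) 2 + (v4 K N) 3) := by
        rw [h4]; ring
      rw [this]
      exact dvd_sub h6 (Dvd.intro_left _ rfl))
    (by
      have : θ ((v4 K N) 0) - g * (v4 K N) 0 + (θ ((v4 K N) 1) - g * (v4 K N) 1) =
          (θ ((v4 K N) 0) + θ ((v4 K N) 1)) - g * ((v4 K N) 0 + (v4 K N) 1) := by ring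
      rw [this]
      exact dvd_sub h5 (Dvd.intro_left _ rfl))
    (by
      have : θ ((v4 K N) 0) - g * (v4 K N) 0 + (θ ((v4 K N) 2) - g * (v4 K N) 2) =
          (θ ((v4 K N) 0) + θ ((v4 K N) 2)) - g * ((v4 K N) 0 + (v4 K N) 2) := by ring
      rw [this]
      exact dvd_sub h7 (Dvd.intro_left _ rfl))
    (by
      have : θ ((v4 K N) 0) - g * (v4 K N) 0 + (θ ((v4 K N) 1) - g * (v4 K N) 1) + (θ ((v4 K N) 2) - g * (v4 K N) 2) =
          (θ ((v4 K N) 0) + θ ((v4 K N) 1) + θ ((v4 K N) 2) + θ ((v4 K N) 3)) - g * ((v4 K N) 0 + (v4 K N) 1 + (v4 K N) 2 + (v4 K N) 3) := by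
        rw [h4]; ring
      rw [this]
      exact dvd_sub h9 (Dvd.intro_left _ rfl))
  exact ⟨g, f, by rw [h4]; ring, by rw [← hf1]; ring, by rw [← hf2]; ring, by rw [← hf3]; ring⟩

theorem Rep.unique (h : (StTS K)) {θ : Derivation K (S K N) (S K N)} {g g' : (S K N)} {f f' : Fin 4 → (S K N)}
    (h1 : Rep θ g f) (h2 : Rep θ g' f') : f - f' ∈ Submodule.span (S K N) {(xv K N)} := by
  obtain ⟨a1, a2, a3, a4⟩ := h1
  obtain ⟨b1, b2, b3, b4⟩ := h2
  have hg : g = g' := mul_right_cancel₀ (v4_ne 3) (a1.symm.trans b1)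
  subst hg
  have e1 := add_left_cancel (a2.symm.trans b2)
  have e2 := add_left_cancel (a3.symm.trans b3)
  have e3 := add_left_cancel (a4.symm.trans b4)
  obtain ⟨s, hs0, hs1, hs2, hs3⟩ := (h (Fin (4 + N)) (Fin.castAdd N) inj4 ((v4 K N) 0) ((v4 K N) 1) ((v4 K N) 2)
    ((v4 K N) 3) rfl rfl rfl rfl).2 (f - f')
    (by simp only [Pi.sub_apply, sub_mul, Finset.sum_sub_distrib]; rw [e1, sub_self])
    (by simp only [Pi.sub_apply, sub_mul, Finset.sum_sub_distrib]; rw [e2, sub_self])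
    (by simp only [Pi.sub_apply, sub_mul, Finset.sum_sub_distrib]; rw [e3, sub_self])
  refine Submodule.mem_span_singleton.2 ⟨s, ?_⟩
  funext k
  fin_cases k
  · exact hs0.symm
  · exact hs1.symm
  · exact hs2.symm
  · exact hs3.symm

theorem split_lemma {S D : Type} [CommRing S] [IsDomain S] [AddCommGroup D] [Module S D]
    [Module.Projective S D] (x : Fin 4 → S) (hx : x 0 ≠ 0) (X1 : Submodule S (Fin 4 → S))
    (hX1 : X1 = Submodule.span S {x})
    (ρ : D →ₗ[S] ((Fin 4 → S) ⧸ X1)) (sD : (Fin 4 → S) →ₗ[S] D)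
    (hsx : sD x = 0) (hid : ∀ f, ρ (sD f) = X1.mkQ f) :
    ∃ g : Fin 4 → S, ∑ j, x j * g j = 1 := by
  have hker : X1 ≤ LinearMap.ker sD := by
    rw [hX1]
    refine Submodule.span_le.2 (Set.singleton_subset_iff.2 ?_)
    exact hsx
  let sb : ((Fin 4 → S) ⧸ X1) →ₗ[S] D := X1.liftQ sD hker
  have hid' : ρ.comp sb = LinearMap.id := by
    apply Submodule.linearMap_qext
    refine LinearMap.ext fun f => ?_
    exact hid f
  have hprojM : Module.Projective S ((Fin 4 → S) ⧸ X1) := Module.Projective.of_split sb ρ hid'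
  obtain ⟨t, ht⟩ := Module.projective_lifting_property X1.mkQ
    (LinearMap.id : ((Fin 4 → S) ⧸ X1) →ₗ[S] ((Fin 4 → S) ⧸ X1))
    (Submodule.mkQ_surjective X1)
  have hr : ∀ j : Fin 4, ∃ g : S, g • x = Pi.single j 1 - t (X1.mkQ (Pi.single j 1)) := by
    intro j
    rw [← Submodule.mem_span_singleton, ← hX1]
    have e := LinearMap.congr_fun ht (X1.mkQ (Pi.single j 1))
    rw [LinearMap.comp_apply, LinearMap.id_apply] at e
    have e2 : Pi.single j 1 - t (X1.mkQ (Pi.single j 1)) ∈ LinearMap.ker X1.mkQ := by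
      rw [LinearMap.mem_ker, map_sub, e, sub_self]
    rwa [Submodule.ker_mkQ] at e2
  choose g hg using hr
  refine ⟨g, ?_⟩
  have hx0 : X1.mkQ x = 0 := by
    rw [← LinearMap.mem_ker, Submodule.ker_mkQ, hX1]
    exact Submodule.mem_span_singleton_self _
  have hxs : x = ∑ j, x j • (Pi.single j 1 : Fin 4 → S) := by
    funext k
    rw [Finset.sum_apply]
    simp [Pi.single_apply]
  have h1 : (∑ j, x j * g j) • x = x := by
    have h2 : ∑ j, x j • (g j • x) = x - t (X1.mkQ x) := by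
      conv_rhs => rw [hxs]
      rw [map_sum, map_sum, ← Finset.sum_sub_distrib]
      refine Finset.sum_congr rfl fun j _ => ?_
      rw [hg, smul_sub, map_smul, map_smul]
    rw [hx0, map_zero, sub_zero] at h2
    rw [Finset.sum_smul]
    conv_rhs => rw [← h2]
    exact Finset.sum_congr rfl fun j _ => mul_smul _ _ _
  have h3 := congrFun h1 0
  rw [Pi.smul_apply, smul_eq_mul] at h3
  exact mul_right_cancel₀ hx (h3.trans (one_mul _).symm)

/-- The product of `T` with any arrangement is not free. -/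
theorem main (h : (StTS K)) (L2 : Set (Fin N → K))
    (A : Finset (Submodule K (Fin (4 + N) → K)))
    (hA : ∀ H, H ∈ A ↔ ∃ α ∈ prodArr (LT K) L2, H = hyp α) :
    ¬ Module.Free (MvPolynomial (Fin (4 + N)) K)
      (Submodule.span (MvPolynomial (Fin (4 + N)) K) (FD A)) := by
  classical
  intro hfree
  set D := Submodule.span (S K N) (FD A) with hD
  -- members of `D`
  have hcondD : ∀ θ ∈ D, ∀ α ∈ prodArr (LT K) L2, lin α ∣ θ (lin α) := by
    intro θ hθ α hα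
    induction hθ using Submodule.span_induction with
    | mem x hx => exact FD_dvd hA hx hα
    | zero => simp
    | add x y _ _ hx hy => rw [Derivation.add_apply]; exact dvd_add hx hy
    | smul s x _ hx => rw [Derivation.smul_apply, smul_eq_mul]; exact Dvd.dvd.mul_left hx s
  have hC : ∀ θ ∈ D, Cond (θ ((v4 K N) 0)) (θ ((v4 K N) 1)) (θ ((v4 K N) 2)) (θ ((v4 K N) 3)) := by
    intro θ hθ
    rw [← cond_iff]
    intro α hα
    exact hcondD θ hθ _ (Or.inl ⟨α, hα, rfl⟩)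
  have hth : ∀ j, (th K N) j ∈ D := by
    intro j
    refine Submodule.subset_span (mem_FD hA ?_)
    rintro α (⟨α, hα, rfl⟩ | ⟨β, hβ, rfl⟩)
    · exact (cond_iff ((th K N) j)).2 (cond_th j) α hα
    · have h0 : (th K N) j (lin (Fin.append (0 : Fin 4 → K) β)) = 0 := by
        rw [der_lin, Fin.sum_univ_add]
        simp only [Fin.append_left, Fin.append_right, th_nat]
        simp
      rw [h0]
      exact dvd_zero _
  have hproj : Module.Projective (S K N) D := Module.Projective.of_free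
  let X1 : Submodule (S K N) (Fin 4 → (S K N)) := Submodule.span (S K N) {(xv K N)}
  have hex : ∀ θ : D, ∃ p : (S K N) × (Fin 4 → (S K N)), Rep θ.1 p.1 p.2 := fun θ => by
    obtain ⟨g, f, hgf⟩ := Rep.exists h (hC θ.1 θ.2)
    exact ⟨(g, f), hgf⟩
  choose P hP using hex
  have hu : ∀ (θ : D) (g : (S K N)) (f : Fin 4 → (S K N)), Rep θ.1 g f →
      X1.mkQ (P θ).2 = X1.mkQ f := by
    intro θ g f hf
    rw [Submodule.mkQ_apply, Submodule.mkQ_apply, Submodule.Quotient.eq]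
    exact Rep.unique h (hP θ) hf
  let ρ : D →ₗ[(S K N)] ((Fin 4 → (S K N)) ⧸ X1) :=
    { toFun := fun θ => X1.mkQ (P θ).2
      map_add' := fun x y => by
        rw [← map_add]
        exact hu (x + y) _ _ ((hP x).add (hP y))
      map_smul' := fun s x => by
        rw [RingHom.id_apply, ← map_smul]
        exact hu (s • x) _ _ ((hP x).smul s) }
  let sD : (Fin 4 → (S K N)) →ₗ[(S K N)] D :=
    { toFun := fun f => ⟨∑ j, f j • (th K N) j, Submodule.sum_mem _ fun j _ => D.smul_mem _ (hth j)⟩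
      map_add' := fun f g => by
        apply Subtype.ext
        simp only [Pi.add_apply, add_smul, Finset.sum_add_distrib, Submodule.coe_add]
      map_smul' := fun s f => by
        apply Subtype.ext
        simp only [Pi.smul_apply, smul_eq_mul, mul_smul, Finset.smul_sum, Submodule.coe_smul,
          RingHom.id_apply] }
  have hval : ∀ (f : Fin 4 → (S K N)) (p : (S K N)), (sD f).1 p = ∑ j, f j * (th K N) j p := by
    intro f p
    change (∑ j, f j • (th K N) j) p = _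
    rw [← Derivation.coeFnAddMonoidHom_apply, map_sum, Finset.sum_apply]
    rfl
  have hsv : ∀ f : Fin 4 → (S K N), Rep (sD f).1 0 f := by
    intro f
    refine ⟨?_, ?_, ?_, ?_⟩ <;> rw [hval] <;> simp [th_v4]
  have hsx : sD (xv K N) = 0 := by
    apply Subtype.ext
    apply derivation_ext
    intro i
    rw [hval]
    have hz : ((0 : D) : Derivation K (S K N) (S K N)) (X i) = 0 := rfl
    rw [hz]
    induction i using Fin.addCases with
    | left k =>
      have e : (X (Fin.castAdd N k) : (S K N)) = (v4 K N) k := rfl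
      rw [e]
      simp only [th_v4, xv, Fin.sum_univ_four]
      generalize (v4 K N) 0 = a
      generalize (v4 K N) 1 = b
      generalize (v4 K N) 2 = c
      generalize (v4 K N) 3 = d
      fin_cases k <;> simp [tha, thb, thc] <;> ring
    | right k => simp only [th_nat, mul_zero, Finset.sum_const_zero]
  have hid : ∀ f, ρ (sD f) = X1.mkQ f := fun f => hu (sD f) 0 f (hsv f)
  obtain ⟨g, h4⟩ : ∃ g : Fin 4 → (S K N), ∑ j, (xv K N) j * g j = 1 :=
    @split_lemma (S K N) D _ _ _ _ hproj (xv K N) (v4_ne 0) X1 rfl ρ sD hsx hid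
  have h5 := congrArg (constantCoeff (R := K) (σ := Fin (4 + N))) h4
  rw [map_sum, map_one] at h5
  have h6 : ∀ j : Fin 4, constantCoeff ((xv K N) j * g j) = 0 := fun j => by
    rw [map_mul, xv, v4, constantCoeff_X, zero_mul]
  simp [h6] at h5

end Pool.Agent.H67ST.STN
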