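import Pool.Agent.helper67ST.STD4

/-!
ST-5: dimensions for `T`.
-/

set_option autoImplicit false

namespace Pool.Agent.H67ST.STD

open MvPolynomial Pool.Agent.W958.ST

variable {K : Type} [Field K]

theorem P_add (w w' : Fin 3 → (S K)) (i : Fin 4) : P (w + w') i = P w i + P w' i := by
  simp only [P, Pi.add_apply]; ring

theorem P_smul (m : (S K)) (w : Fin 3 → (S K)) (i : Fin 4) : P (m • w) i = m * P w i := by
  simp only [P, Pi.smul_apply, smul_eq_mul]; ring

/-- the coefficients of a form -/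
noncomputable def co (ω : Alt (Fin 4) K (Fin 4) 2) : Fin 3 → (S K) :=
  ![ω ![Pi.single 0 1, Pi.single 1 1], ω ![Pi.single 0 1, Pi.single 2 1],
      ω ![Pi.single 1 1, Pi.single 2 1]]

theorem co_TF (w : Fin 3 → (S K)) : co (TF w) = w := by
  funext t
  simp only [co, TF_apply]
  fin_cases t <;> simp

theorem co_add (ω η : Alt (Fin 4) K (Fin 4) 2) : co (ω + η) = co ω + co η := by
  funext t
  fin_cases t <;> rfl

theorem co_smul (c : K) (ω : Alt (Fin 4) K (Fin 4) 2) : co (c • ω) = c • co ω := by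
  funext t
  fin_cases t <;> rfl

theorem co_V2 {k : ℕ} {ω : Alt (Fin 4) K (Fin 4) 2} (h : ω ∈ HD (LT K) (aT K) 2 k) :
    V2 (co ω) ∧ ∀ t, (co ω t).IsHomogeneous k := by
  obtain ⟨⟨hd, hh⟩, h0⟩ := h
  have h1 := eq_TF ω h0
  change ω = TF (co ω) at h1
  constructor
  · intro i
    have h2 : ∀ m : Fin 4, lin ((be K) i) ∣ TF (co ω) ![cv ((be K) i), Pi.single m 1] := by
      intro m
      rw [← h1]
      exact hd ((be K) i) ((mem_LT_iff _).2 (Or.inr ⟨i, rfl⟩)) _ 0 rfl
    have e0 := h2 0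
    have e1 := h2 1
    have e2 := h2 2
    rw [TF_apply] at e0 e1 e2
    simp [cv] at e0 e1 e2
    refine ⟨?_, ?_, ?_⟩
    · rw [← dvd_neg]
      convert e0 using 1; ring
    · convert e1 using 1; ring
    · convert e2 using 1; ring
  · have key : ∀ i j : Fin 4, (ω ![Pi.single i 1, Pi.single j 1]).IsHomogeneous k := by
      intro i j
      have h2 := hh ![i, j]
      have e : (fun t : Fin 2 => (Pi.single ((![i, j] : Fin 2 → Fin 4) t) 1 : Fin 4 → (S K))) =
          ![Pi.single i 1, Pi.single j 1] := by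
        funext t
        fin_cases t <;> rfl
      rw [e] at h2
      exact h2
    intro t
    fin_cases t
    · exact key 0 1
    · exact key 0 2
    · exact key 1 2

theorem P_hom {k : ℕ} {w : Fin 3 → (S K)} (hw : ∀ t, (w t).IsHomogeneous k) (i : Fin 4) :
    (P w i).IsHomogeneous (k + 3) := by
  obtain ⟨h1, h2, h3⟩ := t_hom (K := K) i
  exact (((hw 0).mul h3).sub ((hw 1).mul h2)).add ((hw 2).mul h1)

theorem P_rel (w : Fin 3 → (S K)) : ∑ i, X i * P w i = 0 := by
  obtain ⟨h1, h2, h3⟩ := rel (1 : S K)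
  simp only [one_mul] at h1 h2 h3
  have e : ∑ i, X i * P w i = w 0 * (∑ j, X j * (tz K) j) - w 1 * (∑ j, X j * (ty K) j) +
      w 2 * (∑ j, X j * (tx K) j) := by
    simp only [P, Fin.sum_univ_four]
    ring
  rw [e, h1, h2, h3]
  ring

variable (K) in
/-- the map `ω ↦ (P_i)` -/
noncomputable def PP (k : ℕ) : HD (LT K) (aT K) 2 k →ₗ[K] (Fin 4 → (S K)) where
  toFun ω := fun i => P (co ω.1) i
  map_add' ω η := by
    funext i
    change P (co (ω.1 + η.1)) i = _
    rw [co_add, P_add]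
    rfl
  map_smul' c ω := by
    funext i
    change P (co (c • ω.1)) i = _
    rw [co_smul]
    change P (c • co ω.1) i = c • P (co ω.1) i
    simp only [P, Pi.smul_apply, smul_mul_assoc, smul_sub, smul_add]

theorem four_C : (4 : (S K)) = C 4 := (map_ofNat C 4).symm

theorem cramer (hK4 : (4 : K) ≠ 0) (w : Fin 3 → (S K)) (h : ∀ i, P w i = 0) : w = 0 := by
  have hD : P ((cr K) 0 1) 2 ≠ 0 := by
    rw [D012]
    have h4 : (4 : (S K)) ≠ 0 := by
      rw [four_C, Ne, C_eq_zero]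
      exact hK4
    exact mul_ne_zero (mul_ne_zero h4 (X_ne_zero _)) Q_ne
  have h0 := h 0
  have h1 := h 1
  have h2 := h 2
  simp only [P] at h0 h1 h2
  simp only [P, cr, Matrix.cons_val] at hD
  funext t
  apply mul_left_cancel₀ hD
  rw [Pi.zero_apply, mul_zero]
  fin_cases t
  · change _ * w 0 = 0
    linear_combination ((tx K) 1 * (ty K) 2 - (tx K) 2 * (ty K) 1) * h0 - ((tx K) 0 * (ty K) 2 - (tx K) 2 * (ty K) 0) * h1 +
      ((tx K) 0 * (ty K) 1 - (tx K) 1 * (ty K) 0) * h2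
  · change _ * w 1 = 0
    linear_combination ((tx K) 1 * (tz K) 2 - (tx K) 2 * (tz K) 1) * h0 - ((tx K) 0 * (tz K) 2 - (tx K) 2 * (tz K) 0) * h1 +
      ((tx K) 0 * (tz K) 1 - (tx K) 1 * (tz K) 0) * h2
  · change _ * w 2 = 0
    linear_combination ((ty K) 1 * (tz K) 2 - (ty K) 2 * (tz K) 1) * h0 - ((ty K) 0 * (tz K) 2 - (ty K) 2 * (tz K) 0) * h1 +
      ((ty K) 0 * (tz K) 1 - (ty K) 1 * (tz K) 0) * h2

theorem PP_inj (hK4 : (4 : K) ≠ 0) (k : ℕ) : Function.Injective ((PP K) k) := by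
  intro ω η h
  apply Subtype.ext
  have h1 := cramer hK4 (co ω.1 - co η.1) fun i => by
    have h2 : P (co ω.1) i = P (co η.1) i := congrFun h i
    have h3 : P (co ω.1 - co η.1) i = P (co ω.1) i - P (co η.1) i := by
      simp only [P, Pi.sub_apply]; ring
    rw [h3, h2, sub_self]
  have h2 := eq_TF ω.1 ω.2.2
  have h3 := eq_TF η.1 η.2.2
  change ω.1 = TF (co ω.1) at h2
  change η.1 = TF (co η.1) at h3
  rw [h2, h3, sub_eq_zero.1 h1]

variable (K) in
/-- `f ↦ ∑ X_i f_i` -/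
noncomputable def Lm (k : ℕ) : (Fin 4 → HW K (Fin 4) k 5) →ₗ[K] HW K (Fin 4) k 4 where
  toFun f := ⟨∑ i, X i * (f i : (S K)), Submodule.sum_mem _ fun i _ =>
    HomW.mul_left (hX i) (f i).2⟩
  map_add' f g := by
    apply Subtype.ext
    change ∑ i, X i * ((f i : (S K)) + (g i : (S K))) = ∑ i, X i * (f i : (S K)) + ∑ i, X i * (g i : (S K))
    rw [← Finset.sum_add_distrib]
    exact Finset.sum_congr rfl fun i _ => mul_add _ _ _
  map_smul' c f := by
    apply Subtype.ext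
    change ∑ i, X i * (c • (f i : (S K))) = c • ∑ i, X i * (f i : (S K))
    rw [Finset.smul_sum]
    exact Finset.sum_congr rfl fun i _ => mul_smul_comm _ _ _

variable (K) in
/-- multiplication by `Q` -/
noncomputable def MM (k : ℕ) : LinearMap.ker ((Lm K) k) →ₗ[K] (Fin 4 → (S K)) where
  toFun f := fun i => (Q K) * (f.1 i : (S K))
  map_add' f g := by
    funext i
    exact mul_add _ _ _
  map_smul' c f := by
    funext i
    exact mul_smul_comm _ _ _

theorem MM_inj (k : ℕ) : Function.Injective ((MM K) k) := by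
  intro f g h
  apply Subtype.ext
  funext i
  apply Subtype.ext
  exact mul_left_cancel₀ Q_ne (congrFun h i)

theorem reg_X : Reg (fun i : Fin 4 => (X i : (S K))) := by
  intro m b hb
  have hs : {f : (S K) | ∃ j, j < m ∧ f = X j} = X '' {j | j < m} := by
    ext f
    exact ⟨fun ⟨j, h1, h2⟩ => ⟨j, h1, h2.symm⟩, fun ⟨j, h1, h2⟩ => ⟨j, h1, h2.symm⟩⟩
  rw [hs, mem_ideal_span_X_image] at hb ⊢
  intro μ hμ
  have h1 : Finsupp.single m 1 + μ ∈ (X m * b).support := by
    rw [mem_support_iff, coeff_X_mul]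
    exact mem_support_iff.1 hμ
  obtain ⟨j, hj, hne⟩ := hb _ h1
  refine ⟨j, hj, ?_⟩
  rw [Finsupp.add_apply, Finsupp.single_apply, if_neg, zero_add] at hne
  · exact hne
  · intro hmj
    have hj' : j < m := hj
    rw [hmj] at hj'
    exact lt_irrefl _ hj'

theorem range_sub (hK4 : (4 : K) ≠ 0) (k : ℕ) : LinearMap.range ((MM K) k) ≤ LinearMap.range ((PP K) k) := by
  rintro _ ⟨⟨f, hf⟩, rfl⟩
  have hf0 : ∑ i, X i * (f i : (S K)) = 0 := congrArg Subtype.val (LinearMap.mem_ker.1 hf)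
  set lam : Fin 4 → (S K) := fun i => (f i : (S K)) with hlam
  obtain ⟨η, hη, -, hηe⟩ := exact_kz (fun i : Fin 4 => (X i : (S K))) (fun _ => 1) (fun i => hX i)
    reg_X 4 le_rfl 0 k 4 (oneForm lam) (by
      intro w
      rw [oneForm_single]
      have : HomW (lam (w 0)) k 5 := (f (w 0)).2
      simpa using this) (fun j hj => absurd j.2 (by omega)) (by
      refine AlternatingMap.ext fun v => ?_
      rw [AlternatingMap.curryLeft_apply_apply, oneForm_apply]
      simp only [Matrix.cons_val_zero, AlternatingMap.zero_apply]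
      rw [← hf0]
      exact Finset.sum_congr rfl fun i _ => mul_comm _ _)
  set m : Fin 4 → Fin 4 → (S K) := fun i j => η ![Pi.single i 1, Pi.single j 1] with hm
  have hsw : ∀ i j, m j i = - m i j := by
    intro i j
    have := η.map_swap ![Pi.single i 1, Pi.single j 1] (i := 0) (j := 1) (by decide)
    rw [hm]
    simp only
    rw [← this]
    congr 1
    funext t
    fin_cases t <;> rfl
  have hsame : ∀ i, m i i = 0 := fun i => η.map_eq_zero_of_eq _ (i := 0) (j := 1) rfl (by decide)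
  have hml : ∀ i, lam i = ∑ j, X j * m j i := by
    intro i
    have h1 : (η.curryLeft (fun i : Fin 4 => (X i : (S K)))) ![Pi.single i 1] =
        oneForm lam ![Pi.single i 1] := by rw [hηe]
    rw [curry_phi, alt_sum_apply, oneForm_apply] at h1
    have h2 : ∑ j, lam j * (![Pi.single i 1] : Fin 1 → (Fin 4 → (S K))) 0 j = lam i := by
      simp [Pi.single_apply]
    rw [h2] at h1
    rw [← h1]
    rfl
  have hmw : ∀ i j, HomW (m i j) k 6 := by
    intro i j
    have h2 := hη ![i, j]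
    have e : (fun t : Fin 2 => (Pi.single ((![i, j] : Fin 2 → Fin 4) t) 1 : Fin 4 → (S K))) =
          ![Pi.single i 1, Pi.single j 1] := by
      funext t
      fin_cases t <;> rfl
    rw [e] at h2
    simpa using h2
  -- the form
  set q : (S K) := C (1 / 4) with hq
  have hq4 : 4 * q = 1 := by
    rw [four_C, hq, ← C_mul, mul_one_div_cancel hK4, C_1]
  set w : Fin 3 → (S K) := q • ((-m 0 1) • (cr K) 2 3 + m 0 2 • (cr K) 1 3 + (-m 0 3) • (cr K) 1 2 +
    (-m 1 2) • (cr K) 0 3 + m 1 3 • (cr K) 0 2 + (-m 2 3) • (cr K) 0 1) with hw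
  have hwV : V2 w := by
    refine V2.smul _ (((((V2.add ?_ ?_).add ?_).add ?_).add ?_).add ?_) <;>
      exact V2.smul _ (cr_V2 _ _)
  have hcr : ∀ k l t, ((cr K) k l t).IsHomogeneous 6 := by
    intro k l t
    obtain ⟨a1, a2, a3⟩ := t_hom (K := K) k
    obtain ⟨b1, b2, b3⟩ := t_hom (K := K) l
    fin_cases t
    · exact (a1.mul b2).sub (a2.mul b1)
    · exact (a1.mul b3).sub (a3.mul b1)
    · exact (a2.mul b3).sub (a3.mul b2)
  have hmc : ∀ i j k' l t, (m i j * (cr K) k' l t).IsHomogeneous k := by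
    intro i j k' l t
    have h := HomW.mul_left (k := k) (A := 0) (hcr k' l t) (by rw [zero_add]; exact hmw i j)
    rw [homW_zero_right] at h
    rw [mul_comm]
    exact h
  have hwh : ∀ t, (w t).IsHomogeneous k := by
    intro t
    have e : w t = q * (-(m 0 1 * (cr K) 2 3 t) + m 0 2 * (cr K) 1 3 t + -(m 0 3 * (cr K) 1 2 t) +
        -(m 1 2 * (cr K) 0 3 t) + m 1 3 * (cr K) 0 2 t + -(m 2 3 * (cr K) 0 1 t)) := by
      simp only [hw, Pi.smul_apply, Pi.add_apply, smul_eq_mul]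
      ring
    rw [e]
    have h := (isHomogeneous_C (Fin 4) (1 / 4 : K)).mul
      ((((((hmc 0 1 2 3 t).neg.add (hmc 0 2 1 3 t)).add (hmc 0 3 1 2 t).neg).add
        (hmc 1 2 0 3 t).neg).add (hmc 1 3 0 2 t)).add (hmc 2 3 0 1 t).neg)
    rw [zero_add] at h
    exact h
  have hPe : ∀ i, P w i = q * (-(m 0 1 * P ((cr K) 2 3) i) + m 0 2 * P ((cr K) 1 3) i +
      -(m 0 3 * P ((cr K) 1 2) i) + -(m 1 2 * P ((cr K) 0 3) i) + m 1 3 * P ((cr K) 0 2) i +
      -(m 2 3 * P ((cr K) 0 1) i)) := by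
    intro i
    rw [hw, P_smul]
    simp only [P_add, P_smul]
    ring
  have rot : ∀ a b c : Fin 4, P ((cr K) a b) c = P ((cr K) c a) b := by
    intro a b c
    simp only [P, cr, Matrix.cons_val]
    ring
  have asw : ∀ a b c : Fin 4, P ((cr K) a b) c = - P ((cr K) b a) c := by
    intro a b c
    simp only [P, cr, Matrix.cons_val]
    ring
  have asame : ∀ a b : Fin 4, P ((cr K) a b) a = 0 := by
    intro a b
    simp only [P, cr, Matrix.cons_val]
    ring
  have asame' : ∀ a b : Fin 4, P ((cr K) a b) b = 0 := by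
    intro a b
    simp only [P, cr, Matrix.cons_val]
    ring
  have hP : ∀ i, P w i = (Q K) * lam i := by
    intro i
    rw [hPe, hml, Fin.sum_univ_four]
    fin_cases i
    · change q * (-(m 0 1 * P ((cr K) 2 3) 0) + m 0 2 * P ((cr K) 1 3) 0 +
        -(m 0 3 * P ((cr K) 1 2) 0) + -(m 1 2 * P ((cr K) 0 3) 0) + m 1 3 * P ((cr K) 0 2) 0 +
        -(m 2 3 * P ((cr K) 0 1) 0)) = (Q K) * (X 0 * m 0 0 + X 1 * m 1 0 + X 2 * m 2 0 + X 3 * m 3 0)
      rw [rot 2 3 0, rot 1 3 0, rot 1 2 0, asame, asame, asame, D023, D013, D012, hsame 0,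
        hsw 0 1, hsw 0 2, hsw 0 3]
      linear_combination ((Q K) * (-(m 0 1 * X 1) - m 0 2 * X 2 - m 0 3 * X 3)) * hq4
    · change q * (-(m 0 1 * P ((cr K) 2 3) 1) + m 0 2 * P ((cr K) 1 3) 1 +
        -(m 0 3 * P ((cr K) 1 2) 1) + -(m 1 2 * P ((cr K) 0 3) 1) + m 1 3 * P ((cr K) 0 2) 1 +
        -(m 2 3 * P ((cr K) 0 1) 1)) = (Q K) * (X 0 * m 0 1 + X 1 * m 1 1 + X 2 * m 2 1 + X 3 * m 3 1)
      rw [rot 2 3 1, rot 0 3 1, asw 1 0 3, rot 0 2 1, asw 1 0 2, asame, asame, asame', D123, D013,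
        D012, hsame 1, hsw 1 2, hsw 1 3]
      linear_combination ((Q K) * ((m 0 1 * X 0) - m 1 2 * X 2 - m 1 3 * X 3)) * hq4
    · change q * (-(m 0 1 * P ((cr K) 2 3) 2) + m 0 2 * P ((cr K) 1 3) 2 +
        -(m 0 3 * P ((cr K) 1 2) 2) + -(m 1 2 * P ((cr K) 0 3) 2) + m 1 3 * P ((cr K) 0 2) 2 +
        -(m 2 3 * P ((cr K) 0 1) 2)) = (Q K) * (X 0 * m 0 2 + X 1 * m 1 2 + X 2 * m 2 2 + X 3 * m 3 2)
      rw [rot 1 3 2, asw 2 1 3, rot 0 3 2, asw 2 0 3, asame, asame', asame', D123, D023,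
        D012, hsame 2, hsw 2 3]
      linear_combination ((Q K) * ((m 0 2 * X 0) + m 1 2 * X 1 - m 2 3 * X 3)) * hq4
    · change q * (-(m 0 1 * P ((cr K) 2 3) 3) + m 0 2 * P ((cr K) 1 3) 3 +
        -(m 0 3 * P ((cr K) 1 2) 3) + -(m 1 2 * P ((cr K) 0 3) 3) + m 1 3 * P ((cr K) 0 2) 3 +
        -(m 2 3 * P ((cr K) 0 1) 3)) = (Q K) * (X 0 * m 0 3 + X 1 * m 1 3 + X 2 * m 2 3 + X 3 * m 3 3)
      rw [asame', asame', asame', D123, D023, D013, hsame 3]
      linear_combination ((Q K) * ((m 0 3 * X 0) + m 1 3 * X 1 + m 2 3 * X 2)) * hq4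
  refine ⟨⟨TF w, TF_mem hwV hwh⟩, ?_⟩
  funext i
  change P (co (TF w)) i = (Q K) * lam i
  rw [co_TF, hP]

theorem range_sup (k : ℕ) : LinearMap.range ((PP K) k) ≤ LinearMap.range ((MM K) k) := by
  rintro _ ⟨⟨ω, hω⟩, rfl⟩
  obtain ⟨hV, hh⟩ := co_V2 hω
  have hd := fun i => Q_dvd_P hV i
  choose lam hlam using hd
  have hl : ∀ i, HomW (lam i) k 5 := by
    intro i
    have h1 := homW_of_mul (A := 0) Q_hom Q_ne (by
      rw [← hlam i]; exact homW_zero_right.2 (P_hom hh i))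
    rw [zero_add] at h1
    constructor
    · intro hk
      have h2 := h1.1 (by omega)
      have e : k + 3 - 8 = k - 5 := by omega
      rwa [e] at h2
    · intro hk
      exact h1.2 (by omega)
  have h0 : ∑ i, X i * lam i = 0 := by
    have h1 := P_rel (co ω)
    simp only [hlam] at h1
    have h2 : (Q K) * ∑ i, X i * lam i = 0 := by
      rw [← h1, Finset.mul_sum]
      exact Finset.sum_congr rfl fun i _ => by ring
    exact (mul_eq_zero.mp h2).resolve_left Q_ne
  refine ⟨⟨fun i => ⟨lam i, hl i⟩, ?_⟩, ?_⟩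
  · rw [LinearMap.mem_ker]
    apply Subtype.ext
    exact h0
  · funext i
    exact (hlam i).symm

theorem finrank_two (hK4 : (4 : K) ≠ 0) (k : ℕ) : Module.finrank K (HD (LT K) (aT K) 2 k) =
    Module.finrank K (LinearMap.ker ((Lm K) k)) := by
  rw [← LinearMap.finrank_range_of_inj (PP_inj hK4 k), ← LinearMap.finrank_range_of_inj (MM_inj k),
    le_antisymm (range_sup k) (range_sub hK4 k)]

theorem Lm_surj (k : ℕ) (hk : 5 ≤ k) : Function.Surjective ((Lm K) k) := by
  rintro ⟨g, hg⟩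
  have hs : {f : (S K) | ∃ j : Fin 4, (j : ℕ) < 4 ∧ f = X j} = X '' (Set.univ : Set (Fin 4)) := by
    ext f
    exact ⟨fun ⟨j, h1, h2⟩ => ⟨j, trivial, h2.symm⟩, fun ⟨j, h1, h2⟩ => ⟨j, j.2, h2.symm⟩⟩
  have hmem : g ∈ Ideal.span {f : (S K) | ∃ j : Fin 4, (j : ℕ) < 4 ∧ f = X j} := by
    rw [hs, mem_ideal_span_X_image]
    intro μ hμ
    have h1 : μ.degree = k - 4 := by
      by_contra hne
      exact (mem_support_iff.1 hμ) ((hg.1 (by omega)).coeff_eq_zero hne)
    by_contra hcon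
    push Not at hcon
    have : μ = 0 := by
      ext i
      exact hcon i trivial
    rw [this, map_zero] at h1
    omega
  obtain ⟨f, -, hfw, hfe⟩ := exists_rep (fun i : Fin 4 => (X i : (S K))) (fun _ => 1) (fun i => hX i) 4 g
    hmem k 4 hg
  refine ⟨fun i => ⟨f i, hfw i⟩, ?_⟩
  apply Subtype.ext
  exact hfe

theorem dim_two (hK4 : (4 : K) ≠ 0) (k : ℕ) (hk : 5 ≤ k) : Module.finrank K (HD (LT K) (aT K) 2 k) +
    Module.finrank K (HW K (Fin 4) k 4) = 4 * Module.finrank K (HW K (Fin 4) k 5) := by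
  have h1 := LinearMap.finrank_range_add_finrank_ker ((Lm K) k)
  rw [LinearMap.range_eq_top.2 (Lm_surj k hk), finrank_top, Module.finrank_pi_fintype] at h1
  rw [finrank_two hK4, add_comm]
  simpa using h1

theorem dim_two_lt (hK4 : (4 : K) ≠ 0) (k : ℕ) (hk : k < 5) : Module.finrank K (HD (LT K) (aT K) 2 k) = 0 := by
  rw [finrank_two hK4]
  have h1 : Module.finrank K (Fin 4 → HW K (Fin 4) k 5) = 0 := by
    rw [Module.finrank_pi_fintype]
    simp only [finrank_HW, if_neg (show ¬ 5 ≤ k by omega), Finset.sum_const_zero]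
  have h2 := Submodule.finrank_le (LinearMap.ker ((Lm K) k))
  omega

theorem main (hK4 : (4 : K) ≠ 0) (h : (StTS K)) : (StTdim K) := by
  refine ⟨?_, ?_, ?_, ?_, ?_, ?_, ?_, ?_⟩
  · intro k
    rw [dim_zero, finrank_HW, if_pos (Nat.zero_le _), Nat.sub_zero]
  · intro k hk
    have h1 := dim_one h k
    rw [finrank_HW, finrank_HW, if_neg (by omega), if_neg (by omega)] at h1
    omega
  · have h1 := dim_one h 3
    rw [finrank_HW, finrank_HW, if_pos (by omega), if_neg (by omega)] at h1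
    have h2 : (3 - 3 + 3).choose 3 = 1 := by decide
    rw [h2] at h1
    omega
  · intro k
    have h1 := dim_one h (k + 4)
    rw [finrank_HW, finrank_HW, if_pos (by omega), if_pos (by omega)] at h1
    have e1 : k + 4 - 3 + 3 = k + 4 := by omega
    have e2 : k + 4 - 4 + 3 = k + 3 := by omega
    rw [e1, e2] at h1
    omega
  · exact dim_two_lt hK4
  · intro k
    have h1 := dim_two hK4 (k + 5) (by omega)
    rw [finrank_HW, finrank_HW, if_pos (by omega), if_pos (by omega)] at h1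
    have e1 : k + 5 - 4 + 3 = k + 4 := by omega
    have e2 : k + 5 - 5 + 3 = k + 3 := by omega
    rw [e1, e2] at h1
    omega
  · intro k hk
    rw [dim_three, finrank_HW, if_neg (by omega)]
  · intro k
    rw [dim_three, finrank_HW, if_pos (by omega)]
    have e1 : k + 8 - 8 + 3 = k + 3 := by omega
    rw [e1]

end Pool.Agent.H67ST.STD
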