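import Pool.Agent.helper67ST.Asm
import Pool.Agent.helper67ST.TS
import Pool.Agent.helper67ST.RegB
import Pool.Agent.helper67ST.Frame
import Pool.Agent.helper67ST.STTdim
import Pool.Agent.helper67ST.STNonFree
import Pool.Graph.R_seed8.W958.ST.Euler
import Pool.Graph.R_seed8.W958.ST.Koszul
import Pool.Graph.R_seed8.W22.STBridge
import Pool.Graph.R_seed8.W177.ST.Sdim
import Pool.Graph.R_seed8.W253.STP.Main

/-!
# The counterexample over every field of characteristic different from 2 and 3, in every dimension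
at least 16
-/

set_option autoImplicit false

namespace Pool.Agent.H67ST

open Pool.Agent.W958.ST

variable {K : Type} [Field K]

variable (K) in
/-- the arrangement `{x = 0}` in `K^1` -/
def C1 : Set (Fin 1 → K) := {fun _ => 1}

variable (K) in
/-- `B` times `n` coordinate hyperplanes -/
def LBn : (n : ℕ) → Set (Fin (12 + n) → K)
  | 0 => LB K
  | n + 1 => prodArr (m := 12 + n) (n := 1) (LBn n) (C1 K)

theorem append_single_left {m n : ℕ} (i : Fin m) :
    Fin.append (Pi.single i 1 : Fin m → K) (0 : Fin n → K) = Pi.single (Fin.castAdd n i) 1 := by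
  funext j
  induction j using Fin.addCases with
  | left j =>
    rw [Fin.append_left]
    by_cases h : j = i
    · subst h; simp
    · rw [Pi.single_eq_of_ne h, Pi.single_eq_of_ne]
      intro h'
      exact h (Fin.castAdd_injective m n h')
  | right j =>
    rw [Fin.append_right, Pi.single_eq_of_ne]
    · rfl
    · intro h'
      have := congrArg Fin.val h'
      simp only [Fin.val_natAdd, Fin.val_castAdd] at this
      omega

theorem append_single_right {m n : ℕ} (i : Fin n) :
    Fin.append (0 : Fin m → K) (Pi.single i 1 : Fin n → K) = Pi.single (Fin.natAdd m i) 1 := by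
  funext j
  induction j using Fin.addCases with
  | left j =>
    rw [Fin.append_left, Pi.single_eq_of_ne]
    · rfl
    · intro h'
      have := congrArg Fin.val h'
      simp only [Fin.val_natAdd, Fin.val_castAdd] at this
      omega
  | right j =>
    rw [Fin.append_right]
    by_cases h : j = i
    · subst h; simp
    · rw [Pi.single_eq_of_ne h, Pi.single_eq_of_ne]
      intro h'
      exact h (Fin.natAdd_injective n m h')

theorem C1_ne : ∀ α ∈ C1 K, α ≠ 0 := by
  intro α hα h0
  subst h0
  have := congrFun (Set.mem_singleton_iff.1 hα) 0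
  simp at this

theorem prodArr_ne {m n : ℕ} {L1 : Set (Fin m → K)} {L2 : Set (Fin n → K)}
    (h1 : ∀ α ∈ L1, α ≠ 0) (h2 : ∀ α ∈ L2, α ≠ 0) : ∀ α ∈ prodArr L1 L2, α ≠ 0 := by
  intro α hα h0
  subst h0
  rcases hα with ⟨β, hβ, h⟩ | ⟨β, hβ, h⟩
  · apply h1 β hβ
    funext i
    have := congrFun h (Fin.castAdd n i)
    simpa using this
  · apply h2 β hβ
    funext i
    have := congrFun h (Fin.natAdd m i)
    simpa using this

theorem prodArr_single {m n : ℕ} {L1 : Set (Fin m → K)} {L2 : Set (Fin n → K)}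
    (h1 : ∀ i, Pi.single i 1 ∈ L1) (h2 : ∀ i, Pi.single i 1 ∈ L2) :
    ∀ i, Pi.single i 1 ∈ prodArr L1 L2 := by
  intro i
  induction i using Fin.addCases with
  | left i => exact Or.inl ⟨_, h1 i, append_single_left i⟩
  | right i => exact Or.inr ⟨_, h2 i, append_single_right i⟩

theorem prodArr_finite {m n : ℕ} {L1 : Set (Fin m → K)} {L2 : Set (Fin n → K)}
    (h1 : L1.Finite) (h2 : L2.Finite) : (prodArr L1 L2).Finite :=
  (h1.image _).union (h2.image _)

theorem LBn_ne (n : ℕ) : ∀ α ∈ LBn K n, α ≠ 0 := by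
  induction n with
  | zero => exact LB_ne (K := K)
  | succ n ih => exact prodArr_ne ih (C1_ne (K := K))

theorem LBn_finite (n : ℕ) : (LBn K n).Finite := by
  induction n with
  | zero => exact finite_LB (K := K)
  | succ n ih => exact prodArr_finite ih (Set.finite_singleton _)

theorem C1_single (i : Fin 1) : (Pi.single i 1 : Fin 1 → K) ∈ C1 K := by
  refine Set.mem_singleton_iff.2 ?_
  funext j
  rw [Subsingleton.elim j i, Pi.single_eq_same]

theorem LB_single (i : Fin 12) : (Pi.single i 1 : Fin 12 → K) ∈ LB K := by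
  obtain ⟨b, c, rfl⟩ := FR.idx_surj i
  refine Set.mem_insert_of_mem _ ⟨b, ?_⟩
  fin_cases c
  · exact Or.inr (Or.inr (Or.inr (Or.inl rfl)))
  · exact Or.inr (Or.inl rfl)
  · exact Or.inl rfl

theorem LBn_single (n : ℕ) : ∀ i, (Pi.single i 1 : Fin (12 + n) → K) ∈ LBn K n := by
  induction n with
  | zero => exact LB_single (K := K)
  | succ n ih => exact prodArr_single ih (C1_single (K := K))

theorem LT_single (i : Fin 4) : (Pi.single i 1 : Fin 4 → K) ∈ LT K := by
  unfold LT
  fin_cases i
  · left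
    funext j
    fin_cases j <;> simp
  · right; left
    funext j
    fin_cases j <;> simp
  · right; right; left
    funext j
    fin_cases j <;> simp
  · right; right; right; left
    funext j
    fin_cases j <;> simp

/-- functions: the forms without arguments -/
theorem dd_zero {σ : Type} [Fintype σ] [DecidableEq σ] (L : Set (σ → K)) (k : ℕ) :
    Module.finrank K (DD L 0 k) = sdim K σ k := by
  let F : DD L 0 k →ₗ[K] MvPolynomial.homogeneousSubmodule σ K k :=
    { toFun := fun ω => ⟨ω.1 (fun j => Pi.single (Fin.elim0 j : σ) 1),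
        ω.2.2 (fun j => Fin.elim0 j)⟩
      map_add' := fun _ _ => rfl
      map_smul' := fun _ _ => rfl }
  refine (LinearEquiv.ofBijective F ⟨?_, ?_⟩).finrank_eq
  · intro ω η hωη
    apply Subtype.ext
    refine AlternatingMap.ext fun v => ?_
    have h1 : ω.1 (fun j => Pi.single (Fin.elim0 j : σ) 1) =
      η.1 (fun j => Pi.single (Fin.elim0 j : σ) 1) := congrArg Subtype.val hωη
    rw [Subsingleton.elim v (fun j => Pi.single (Fin.elim0 j : σ) 1)]
    exact h1
  · rintro ⟨g, hg⟩
    refine ⟨⟨AlternatingMap.constOfIsEmpty (MvPolynomial σ K) (σ → MvPolynomial σ K) (Fin 0) g,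
      ⟨fun _ _ _ j => j.elim0, fun w => hg⟩⟩, ?_⟩
    apply Subtype.ext
    rfl

theorem one_sub_X_ne : (1 - PowerSeries.X : PowerSeries ℤ) ≠ 0 := by
  intro h
  have := congrArg (PowerSeries.coeff 0) h
  simp at this

theorem psi_C1 : Psi (fun p k => Module.finrank K (DD (C1 K) p k)) 1 = 1 + PowerSeries.X := by
  have hm : (fun _ => 1 : Fin 1 → K) ∈ C1 K := Set.mem_singleton _
  have hne := C1_ne _ hm
  have h := psi_dd_hd main_euler (C1 K) (fun _ => 1) hm hne
  rw [Fintype.card_fin] at h
  obtain ⟨-, -, h3, h4, -⟩ := main_euler K (Fin 1) (C1 K) (fun _ => 1) hm hne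
  have g0 : gen (fun k => Module.finrank K (HD (C1 K) (fun _ => 1) 0 k)) =
      gen (sdim K (Fin 1)) := by
    congr 1
    funext k
    rw [← h3 k, dd_zero]
  have g1 : gen (fun k => Module.finrank K (HD (C1 K) (fun _ => 1) 1 k)) = 0 :=
    gen_zero_iff _ fun k => h4 _ k (by simp)
  have e : Psi (fun p k => Module.finrank K (HD (C1 K) (fun _ => 1) p k)) 1 =
      gen (sdim K (Fin 1)) := by
    unfold Psi
    simp only [Finset.sum_range_succ, Finset.sum_range_zero, g0, g1]
    ring
  rw [h, e]
  have hs := Pool.Agent.W177.ST.main_sdim K 1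
  rw [pow_one] at hs
  linear_combination (1 + PowerSeries.X) * hs

theorem LBn_psi (n : ℕ) : Psi (fun p k => Module.finrank K (DD (LBn K n) p k)) (12 + n) =
    Psi (fun p k => Module.finrank K (DD (LB K) p k)) 12 * (1 + PowerSeries.X) ^ n := by
  induction n with
  | zero =>
    rw [pow_zero, mul_one]
    rfl
  | succ n ih =>
    have h0 := LBn_single (K := K) n ⟨0, by omega⟩
    have h := psi_conv (fun p k => Module.finrank K (DD (LBn K n) p k))
      (fun p k => Module.finrank K (DD (C1 K) p k))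
      (fun p k => Module.finrank K (DD (prodArr (LBn K n) (C1 K)) p k)) (12 + n) 1
      (fun p k hp => (main_euler K (Fin (12 + n)) (LBn K n) _ h0 (LBn_ne n _ h0)).2.2.2.2 p k
        (by simpa using hp))
      (fun p k hp => (main_euler K (Fin 1) (C1 K) _ (C1_single 0) (C1_ne _ (C1_single 0))).2.2.2.2
        p k (by simpa using hp))
      (fun p k => Pool.Agent.W253.STP.main K (12 + n) 1 (LBn K n) (C1 K) p k)
    rw [ih, psi_C1] at h
    rw [pow_succ, ← mul_assoc]
    exact h

theorem fpoly_rev (n : ℕ) : (fC * (1 + Polynomial.X) ^ n).reverse =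
    fC * (1 + Polynomial.X) ^ n := by
  rw [Polynomial.reverse_mul_of_domain, rev_fC, rev_pow _ _ rev_s2]

theorem fpoly_ne (n : ℕ) : fC * (1 + Polynomial.X) ^ n ≠ 0 := by
  refine mul_ne_zero fC_ne (pow_ne_zero _ ?_)
  intro h
  have := congrArg (Polynomial.eval 0) h
  simp at this

theorem psi_final (h2 : (2 : K) ≠ 0) (h3 : (3 : K) ≠ 0) (n : ℕ) :
    ((fC * (1 + Polynomial.X) ^ n : Polynomial ℤ) : PowerSeries ℤ) =
      Psi (fun p k => Module.finrank K (DD (prodArr (LT K) (LBn K n)) p k)) (4 + (12 + n)) := by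
  have h4 : (4 : K) ≠ 0 := by
    have : (4 : K) = 2 * 2 := by norm_num
    rw [this]; exact mul_ne_zero h2 h2
  have hE := main_euler
  have hS := Pool.Agent.W177.ST.main_sdim
  have hH := one_sub_pow_H4 (Pool.Agent.W177.ST.sdim_four ℚ) hS
  have hD : StTdim K := STD.main h4 (TS.main h2)
  have hC16 := psiC hE hD (FR.main_frame h2) main_koszul (RG.main_reg h2 h3) hS hH
    Pool.Agent.W253.STP.main
  have hconv := psi_conv (fun p k => Module.finrank K (DD (LT K) p k))
    (fun p k => Module.finrank K (DD (LB K) p k))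
    (fun p k => Module.finrank K (DD (prodArr (LT K) (LB K)) p k)) 4 12
    (fun p k hp => (hE K (Fin 4) (LT K) (aT K) aT_mem (LT_ne _ aT_mem)).2.2.2.2 p k
      (by simpa using hp))
    (fun p k hp => (hE K (Fin 12) (LB K) (aB K) aB_mem aB_ne).2.2.2.2 p k (by simpa using hp))
    (fun p k => Pool.Agent.W253.STP.main K 4 12 (LT K) (LB K) p k)
  have h0 := LBn_single (K := K) n ⟨0, by omega⟩
  have hconv2 := psi_conv (fun p k => Module.finrank K (DD (LT K) p k))
    (fun p k => Module.finrank K (DD (LBn K n) p k))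
    (fun p k => Module.finrank K (DD (prodArr (LT K) (LBn K n)) p k)) 4 (12 + n)
    (fun p k hp => (hE K (Fin 4) (LT K) (aT K) aT_mem (LT_ne _ aT_mem)).2.2.2.2 p k
      (by simpa using hp))
    (fun p k hp => (hE K (Fin (12 + n)) (LBn K n) _ h0 (LBn_ne n _ h0)).2.2.2.2 p k
      (by simpa using hp))
    (fun p k => Pool.Agent.W253.STP.main K 4 (12 + n) (LT K) (LBn K n) p k)
  rw [hconv2, LBn_psi, ← mul_assoc, ← hconv, ← hC16]
  rw [← Polynomial.coeToPowerSeries.ringHom_apply, map_mul, map_pow, map_add, map_one,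
    Polynomial.coeToPowerSeries.ringHom_apply, Polynomial.coeToPowerSeries.ringHom_apply,
    Polynomial.coe_X]

/-- The main result. -/
theorem main (K : Type) [Field K] (h6 : (6 : K) ≠ 0) (ℓ : ℕ) (hℓ : 16 ≤ ℓ) :
    ∃ A : Finset (Submodule K (Fin ℓ → K)),
      (∀ H ∈ A, ∃ a : Module.Dual K (Fin ℓ → K), a ≠ 0 ∧ LinearMap.ker a = H) ∧
      (⨅ H ∈ A, H) = ⊥ ∧
      ¬ Module.Free (MvPolynomial (Fin ℓ) K)
          (Submodule.span (MvPolynomial (Fin ℓ) K) (FD A)) ∧
      ∃ f : Polynomial ℤ, f ≠ 0 ∧ f.reverse = f ∧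
          (f : PowerSeries ℤ) =
            ∑ p ∈ Finset.range (ℓ + 1),
              PowerSeries.mk (fun k : ℕ =>
                  ((Module.finrank K (Submodule.span K (FS A p k)) : ℕ) : ℤ))
                * (-PowerSeries.X) ^ p := by
  classical
  have e6 : (6 : K) = 2 * 3 := by norm_num
  have h2 : (2 : K) ≠ 0 := fun h => h6 (by rw [e6, h, zero_mul])
  have h3 : (3 : K) ≠ 0 := fun h => h6 (by rw [e6, h, mul_zero])
  obtain ⟨n, rfl⟩ : ∃ n, ℓ = 4 + (12 + n) := ⟨ℓ - 16, by omega⟩
  have hne := prodArr_ne (LT_ne (K := K)) (LBn_ne (K := K) n)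
  have hfin := prodArr_finite (finite_LT (K := K)) (LBn_finite (K := K) n)
  have hsing := prodArr_single (LT_single (K := K)) (LBn_single (K := K) n)
  let A : Finset (Submodule K (Fin (4 + (12 + n)) → K)) := hfin.toFinset.image hyp
  have hA : ∀ H, H ∈ A ↔ ∃ α ∈ prodArr (LT K) (LBn K n), H = hyp α := by
    intro H
    simp only [A, Finset.mem_image, Set.Finite.mem_toFinset]
    constructor
    · rintro ⟨α, h, rfl⟩; exact ⟨α, h, rfl⟩
    · rintro ⟨α, h, rfl⟩; exact ⟨α, h, rfl⟩
  refine ⟨A, ?_, ?_, ?_, fC * (1 + Polynomial.X) ^ n, fpoly_ne n, fpoly_rev n, ?_⟩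
  · intro H hH
    obtain ⟨α, hα, rfl⟩ := (hA H).mp hH
    exact hyp_pi _ α (hne α hα)
  · rw [eq_bot_iff]
    intro v hv
    rw [Submodule.mem_bot]
    funext i
    have h1 : v ∈ hyp (Pi.single i (1 : K)) := by
      have := (Submodule.mem_iInf _).1 hv (hyp (Pi.single i (1 : K)))
      exact (Submodule.mem_iInf _).1 this ((hA _).2 ⟨_, hsing i, rfl⟩)
    have h2 : (∑ j, (Pi.single i (1 : K) : Fin (4 + (12 + n)) → K) j •
      (LinearMap.proj j : (Fin (4 + (12 + n)) → K) →ₗ[K] K)) v = 0 := h1
    simpa [LinearMap.sum_apply, Pi.single_apply] using h2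
  · exact STN.main (TS.main h2) (LBn K n) A hA
  · rw [psi_final h2 h3 n, Psi]
    refine Finset.sum_congr rfl fun p _ => ?_
    congr 1
    unfold gen
    congr 1
    funext k
    rw [Pool.Agent.W22.STBridge.main K (4 + (12 + n)) (prodArr (LT K) (LBn K n)) hne A hA p k]

end Pool.Agent.H67ST
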