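import Pool.Agent.helper67ST.Defs
import Pool.Graph.R_seed8.W958.ST.Kz1
import Pool.Graph.R_seed8.W958.ST.Euler
import Pool.Graph.R_seed8.W177.ST.Sdim

/-!
ST-5, part 1: common lemmas.
-/

set_option autoImplicit false

namespace Pool.Agent.H67ST.STD

open MvPolynomial Pool.Agent.W958.ST

variable {K : Type} [Field K]

variable (K) in
abbrev S := MvPolynomial (Fin 4) K

theorem finrank_HW (k A : ℕ) :
    Module.finrank K (HW K (Fin 4) k A) = if A ≤ k then (k - A + 3).choose 3 else 0 := by
  split_ifs with h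
  · rw [HW_eq_of_le h, ← Pool.Agent.W177.ST.sdim_four K (k - A)]
    rfl
  · rw [HW_eq_of_lt (by omega)]
    exact finrank_bot K _

theorem finrank_exact {A B C : Type} [AddCommGroup A] [AddCommGroup B] [AddCommGroup C]
    [Module K A] [Module K B] [Module K C] [Module.Finite K B] (f : A →ₗ[K] B) (g : B →ₗ[K] C)
    (hf : Function.Injective f) (hg : Function.Surjective g)
    (h : LinearMap.range f = LinearMap.ker g) :
    Module.finrank K B = Module.finrank K A + Module.finrank K C := by
  have h1 := LinearMap.finrank_range_add_finrank_ker g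
  rw [LinearMap.range_eq_top.2 hg, finrank_top, ← h, LinearMap.finrank_range_of_inj hf] at h1
  omega

theorem homW_of_mul {f g : (S K)} {c k A : ℕ} (hf : f.IsHomogeneous c) (hf0 : f ≠ 0)
    (h : HomW (f * g) k A) : HomW g k (A + c) := by
  have key : ∀ n, (f * g).IsHomogeneous n → n < c → g = 0 := by
    intro n hn hlt
    have h2 := hcomp_mul (g := g) hf n
    rw [if_neg (by omega), mul_zero, homogeneousComponent_eq_self hn] at h2
    exact (mul_eq_zero.mp h2).resolve_left hf0
  constructor
  · intro hk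
    have h1 := h.1 (by omega)
    have e : k - A = c + (k - (A + c)) := by omega
    rw [e] at h1
    exact hom_of_mul hf hf0 h1
  · intro hk
    rcases Nat.lt_or_ge k A with h1 | h1
    · exact (mul_eq_zero.mp (h.2 h1)).resolve_left hf0
    · exact key _ (h.1 h1) (by omega)

variable (K) in
/-- the eight covectors other than `d` -/
def be : Fin 8 → (Fin 4 → K) :=
  ![![1, 0, 0, 0], ![0, 1, 0, 0], ![0, 0, 1, 0], ![0, 1, 0, 1], ![0, 0, 1, 1], ![1, 1, 0, 0],
    ![1, 0, 1, 0], ![1, 1, 1, 1]]

theorem mem_LT_iff (α : Fin 4 → K) : α ∈ (LT K) ↔ α = (aT K) ∨ ∃ i, α = (be K) i := by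
  simp only [LT, Set.mem_insert_iff, Set.mem_singleton_iff, aT]
  constructor
  · rintro (h | h | h | h | h | h | h | h | h)
    · exact Or.inr ⟨0, h⟩
    · exact Or.inr ⟨1, h⟩
    · exact Or.inr ⟨2, h⟩
    · exact Or.inl h
    · exact Or.inr ⟨5, h⟩
    · exact Or.inr ⟨4, h⟩
    · exact Or.inr ⟨6, h⟩
    · exact Or.inr ⟨3, h⟩
    · exact Or.inr ⟨7, h⟩
  · rintro (h | ⟨i, h⟩)
    · tauto
    · fin_cases i <;> simp only [be] at h <;> tauto

theorem be_ne (i : Fin 8) : (be K) i ≠ 0 := by
  intro h
  have h0 := congrFun h 0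
  have h1 := congrFun h 1
  have h2 := congrFun h 2
  fin_cases i <;> simp [be] at h0 h1 h2

theorem be_pair (i j : Fin 8) (hij : i ≠ j) : ¬ lin ((be K) i) ∣ lin ((be K) j) := by
  intro h
  obtain ⟨c, hc⟩ := lin_dvd_lin (be_ne j) h
  have h' : ∀ k, (be K) i k = c * (be K) j k := by
    intro k
    have := congrFun hc k
    simp only [cv, Pi.smul_apply, smul_eq_mul, ← C_mul] at this
    exact C_injective _ _ this
  have hm : ∀ k l, (be K) i k * (be K) j l = (be K) i l * (be K) j k := by
    intro k l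
    rw [h' k, h' l]
    ring
  have m01 := hm 0 1
  have m02 := hm 0 2
  have m03 := hm 0 3
  have m12 := hm 1 2
  have m13 := hm 1 3
  have m23 := hm 2 3
  clear hm h' hc h
  fin_cases i <;> fin_cases j <;> first
    | exact absurd rfl hij
    | (exfalso
       simp [be] at m01 m02 m03 m12 m13 m23)

variable (K) in
/-- the product of the eight linear forms -/
noncomputable def Q : (S K) := ∏ i, lin ((be K) i)

theorem Q_dvd {f : (S K)} (h : ∀ i, lin ((be K) i) ∣ f) : (Q K) ∣ f := by
  unfold Q
  refine Finset.prod_dvd_of_isRelPrime ?_ fun i _ => h i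
  intro i _ j _ hij
  have hp := (lin_prime (K := K) (be_ne i)).irreducible
  change IsRelPrime (lin ((be K) i)) (lin ((be K) j))
  exact hp.isRelPrime_iff_not_dvd.2 (be_pair i j hij)

theorem dvd_Q (i : Fin 8) : lin ((be K) i) ∣ (Q K) := Finset.dvd_prod_of_mem _ (Finset.mem_univ i)

theorem Q_ne : (Q K) ≠ 0 := Finset.prod_ne_zero_iff.2 fun i _ => lin_ne (be_ne i)

theorem Q_hom : (Q K).IsHomogeneous 8 := by
  have h := IsHomogeneous.prod Finset.univ (fun i : Fin 8 => (lin ((be K) i) : (S K))) (fun _ => 1)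
    fun i _ => lin_hom _
  rw [Finset.sum_const, Finset.card_univ, Fintype.card_fin, smul_eq_mul, mul_one] at h
  exact h

end Pool.Agent.H67ST.STD
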