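import Pool.Agent.helper67ST.STD2

/-!
ST-5, part 3: the case p = 3.
-/

set_option autoImplicit false

namespace Pool.Agent.H67ST.STD

open MvPolynomial Pool.Agent.W958.ST

variable {K : Type} [Field K]

variable (K) in
/-- the first three coordinates -/
noncomputable def pi3 : (Fin 4 → (S K)) →ₗ[(S K)] (Fin 3 → (S K)) := LinearMap.funLeft (S K) (S K) ![0, 1, 2]

variable (K) in
/-- extension by zero -/
noncomputable def io3 : (Fin 3 → (S K)) →ₗ[(S K)] (Fin 4 → (S K)) where
  toFun x := ![x 0, x 1, x 2, 0]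
  map_add' x y := by funext i; fin_cases i <;> simp
  map_smul' c x := by funext i; fin_cases i <;> simp

theorem pi3_single_last : (pi3 K) (Pi.single 3 1) = 0 := by
  funext i
  simp only [pi3, LinearMap.funLeft_apply]
  fin_cases i <;> simp

theorem io3_pi3 (i : Fin 4) (hi : i ≠ 3) : (io3 K) ((pi3 K) (Pi.single i 1)) = Pi.single i 1 := by
  funext j
  simp only [io3, pi3, LinearMap.coe_mk, AddHom.coe_mk, LinearMap.funLeft_apply]
  fin_cases i <;> fin_cases j <;> first | exact absurd rfl hi | simp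

theorem cv_aT : (cv (aT K) : Fin 4 → (S K)) = Pi.single 3 1 := by
  funext i
  fin_cases i <;> simp [cv, aT]

theorem restrict {p : ℕ} (ω : Alt (Fin 4) K (Fin 4) p)
    (h : ∀ (v : Fin p → (Fin 4 → (S K))) (j : Fin p), v j = cv (aT K) → ω v = 0) :
    ω = (ω.compLinearMap (io3 K)).compLinearMap (pi3 K) := by
  apply ext_single
  intro w
  rw [AlternatingMap.compLinearMap_apply, AlternatingMap.compLinearMap_apply]
  by_cases hw : ∃ j, w j = 3
  · obtain ⟨j, hj⟩ := hw
    rw [h _ j (by rw [hj, cv_aT])]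
    symm
    apply AlternatingMap.map_coord_zero _ j
    rw [hj, pi3_single_last, map_zero]
  · push Not at hw
    congr 1
    funext j
    rw [io3_pi3 _ (hw j)]

variable (K) in
/-- the volume form -/
noncomputable def vol : Alt (Fin 4) K (Fin 4) 3 :=
  (Matrix.detRowAlternating (n := Fin 3) (R := (S K))).compLinearMap (pi3 K)

theorem vol_apply (v : Fin 3 → (Fin 4 → (S K))) : (vol K) v =
    Matrix.det (Matrix.of fun j i => v j (![0, 1, 2] i)) :=
  rfl

theorem eq_vol (ω : Alt (Fin 4) K (Fin 4) 3)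
    (h : ∀ (v : Fin 3 → (Fin 4 → (S K))) (j : Fin 3), v j = cv (aT K) → ω v = 0) :
    ω = ω ![Pi.single 0 1, Pi.single 1 1, Pi.single 2 1] • (vol K) := by
  have h1 := restrict ω h
  have h2 := (ω.compLinearMap (io3 K)).eq_smul_basis_det (Pi.basisFun (S K) (Fin 3))
  conv_lhs => rw [h1, h2]
  rw [Pi.basisFun_det]
  have h3 : (ω.compLinearMap (io3 K)) (Pi.basisFun (S K) (Fin 3)) =
      ω ![Pi.single 0 1, Pi.single 1 1, Pi.single 2 1] := by
    rw [AlternatingMap.compLinearMap_apply]
    congr 1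
    funext j
    rw [Pi.basisFun_apply]
    funext i
    simp only [io3, LinearMap.coe_mk, AddHom.coe_mk]
    fin_cases j <;> fin_cases i <;> simp
  rw [h3]
  ext v
  rfl

theorem vol_hom (w : Fin 3 → Fin 4) : ∃ c : K, (vol K) (fun j => Pi.single (w j) 1) = C c := by
  refine ⟨Matrix.det (Matrix.of fun j i => (Pi.single (w j) 1 : Fin 4 → K) (![0, 1, 2] i)), ?_⟩
  rw [vol_apply, RingHom.map_det]
  congr 1
  ext1 j i
  simp only [RingHom.mapMatrix_apply, Matrix.map_apply, Matrix.of_apply, Pi.single_apply]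
  split_ifs <;> simp

theorem three_mem {k : ℕ} {f : (S K)} (hf : HomW f k 8) :
    ((Q K) * f) • (vol K) ∈ HD (LT K) (aT K) 3 k := by
  have h0 : ∀ (v : Fin 3 → (Fin 4 → (S K))) (j : Fin 3), v j = cv (aT K) → (((Q K) * f) • (vol K)) v = 0 := by
    intro v j hv
    rw [AlternatingMap.smul_apply, vol_apply, Matrix.det_eq_zero_of_row_eq_zero j, smul_zero]
    intro i
    rw [Matrix.of_apply, hv]
    fin_cases i <;> simp [cv, aT]
  refine ⟨⟨fun α hα v j hv => ?_, fun w => ?_⟩, h0⟩
  · rcases (mem_LT_iff α).1 hα with h | ⟨i, h⟩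
    · rw [h0 v j (by rw [hv, h])]
      exact dvd_zero _
    · rw [AlternatingMap.smul_apply, smul_eq_mul, h]
      exact Dvd.dvd.mul_right (Dvd.dvd.mul_right (dvd_Q i) _) _
  · obtain ⟨c, hc⟩ := vol_hom (K := K) w
    rw [AlternatingMap.smul_apply, hc, smul_eq_mul, mul_comm]
    have h1 := HomW.mul_left (k := k) (A := 0) Q_hom (by rw [zero_add]; exact hf)
    rw [homW_zero_right] at h1
    simpa using (isHomogeneous_C (Fin 4) c).mul h1

theorem vol_std : (vol K) ![Pi.single 0 1, Pi.single 1 1, Pi.single 2 1] = 1 := by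
  rw [vol_apply, Matrix.det_fin_three]
  simp

theorem be_some (i : Fin 8) : ∃ t : Fin 3, (be K) i (![0, 1, 2] t) = 1 := by
  fin_cases i
  · exact ⟨0, by simp [be]⟩
  · exact ⟨1, by simp [be]⟩
  · exact ⟨2, by simp [be]⟩
  · exact ⟨1, by simp [be]⟩
  · exact ⟨2, by simp [be]⟩
  · exact ⟨0, by simp [be]⟩
  · exact ⟨0, by simp [be]⟩
  · exact ⟨0, by simp [be]⟩

theorem vol_update (i : Fin 8) : ∃ (v : Fin 3 → (Fin 4 → (S K))) (j : Fin 3), v j = cv ((be K) i) ∧
    (vol K) v = 1 := by
  obtain ⟨t, ht⟩ := be_some (K := K) i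
  refine ⟨Function.update ![Pi.single 0 1, Pi.single 1 1, Pi.single 2 1] t (cv ((be K) i)), t,
    Function.update_self _ _ _, ?_⟩
  rw [vol_apply, Matrix.det_fin_three]
  fin_cases t <;> simp [Function.update, cv] at ht ⊢ <;> simp [ht]

variable (K) in
noncomputable def Ps (k : ℕ) : HW K (Fin 4) k 8 →ₗ[K] HD (LT K) (aT K) 3 k where
  toFun f := ⟨((Q K) * (f : (S K))) • (vol K), three_mem f.2⟩
  map_add' f g := by
    apply Subtype.ext
    change ((Q K) * ((f : (S K)) + (g : (S K)))) • (vol K) = ((Q K) * (f : (S K))) • (vol K) + ((Q K) * (g : (S K))) • (vol K)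
    rw [mul_add, add_smul]
  map_smul' c f := by
    apply Subtype.ext
    change ((Q K) * (c • (f : (S K)))) • (vol K) = c • (((Q K) * (f : (S K))) • (vol K))
    refine AlternatingMap.ext fun v => ?_
    rw [AlternatingMap.smul_apply, AlternatingMap.smul_apply, AlternatingMap.smul_apply,
      mul_smul_comm, smul_assoc]

theorem dim_three (k : ℕ) : Module.finrank K (HD (LT K) (aT K) 3 k) =
    Module.finrank K (HW K (Fin 4) k 8) := by
  symm
  refine (LinearEquiv.ofBijective ((Ps K) k) ⟨?_, ?_⟩).finrank_eq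
  · intro f g h
    apply Subtype.ext
    have h1 : ((Q K) * (f : (S K))) • (vol K) = ((Q K) * (g : (S K))) • (vol K) := congrArg Subtype.val h
    have h2 := congrArg (fun ω : Alt (Fin 4) K (Fin 4) 3 =>
      ω ![Pi.single 0 1, Pi.single 1 1, Pi.single 2 1]) h1
    simp only [AlternatingMap.smul_apply, vol_std, smul_eq_mul, mul_one] at h2
    exact mul_left_cancel₀ Q_ne h2
  · rintro ⟨ω, ⟨hd, hh⟩, h0⟩
    have h1 := eq_vol ω h0
    set W := ω ![Pi.single 0 1, Pi.single 1 1, Pi.single 2 1] with hW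
    have h2 : (Q K) ∣ W := by
      apply Q_dvd
      intro i
      obtain ⟨v, j, hv, hvol⟩ := vol_update (K := K) i
      have h3 := hd ((be K) i) ((mem_LT_iff _).2 (Or.inr ⟨i, rfl⟩)) v j hv
      rw [h1, AlternatingMap.smul_apply, hvol, smul_eq_mul, mul_one] at h3
      exact h3
    obtain ⟨f, hf⟩ := h2
    have hWh : W.IsHomogeneous k := by
      have h3 := hh ![0, 1, 2]
      have e : (fun j : Fin 3 => (Pi.single ((![0, 1, 2] : Fin 3 → Fin 4) j) 1 : Fin 4 → (S K))) =
          ![Pi.single 0 1, Pi.single 1 1, Pi.single 2 1] := by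
        funext j
        fin_cases j <;> rfl
      rw [e] at h3
      exact h3
    have hfw : HomW f k 8 := by
      have := homW_of_mul (A := 0) Q_hom Q_ne (by rw [← hf]; exact homW_zero_right.2 hWh)
      rwa [zero_add] at this
    refine ⟨⟨f, hfw⟩, ?_⟩
    apply Subtype.ext
    change ((Q K) * f) • (vol K) = ω
    rw [← hf, ← h1]

end Pool.Agent.H67ST.STD
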