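import Pool.Agent.helper67ST.STD3

/-!
ST-5, part 4: the case p = 2.
-/

set_option autoImplicit false

namespace Pool.Agent.H67ST.STD

open MvPolynomial Pool.Agent.W958.ST

variable {K : Type} [Field K]

variable (K) in
/-- coordinate 2-forms -/
noncomputable def E2 (i j : Fin 4) : Alt (Fin 4) K (Fin 4) 2 :=
  (Matrix.detRowAlternating (n := Fin 2) (R := (S K))).compLinearMap (LinearMap.funLeft (S K) (S K) ![i, j])

theorem E2_apply (i j : Fin 4) (v : Fin 2 → (Fin 4 → (S K))) :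
    (E2 K) i j v = v 0 i * v 1 j - v 0 j * v 1 i := by
  have h : (E2 K) i j v = Matrix.det (Matrix.of fun t s => v t (![i, j] s)) := rfl
  rw [h, Matrix.det_fin_two]
  simp

/-- the form with coefficients `w_01, w_02, w_12` -/
noncomputable def TF (w : Fin 3 → (S K)) : Alt (Fin 4) K (Fin 4) 2 :=
  w 0 • (E2 K) 0 1 + w 1 • (E2 K) 0 2 + w 2 • (E2 K) 1 2

theorem TF_apply (w : Fin 3 → (S K)) (v : Fin 2 → (Fin 4 → (S K))) : TF w v =
    w 0 * (v 0 0 * v 1 1 - v 0 1 * v 1 0) + w 1 * (v 0 0 * v 1 2 - v 0 2 * v 1 0) +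
      w 2 * (v 0 1 * v 1 2 - v 0 2 * v 1 1) := by
  simp only [TF, AlternatingMap.add_apply, AlternatingMap.smul_apply, E2_apply, smul_eq_mul]

/-- the divisibility conditions -/
def V2 (w : Fin 3 → (S K)) : Prop := ∀ i : Fin 8,
  lin ((be K) i) ∣ C ((be K) i 1) * w 0 + C ((be K) i 2) * w 1 ∧
  lin ((be K) i) ∣ C ((be K) i 0) * w 0 - C ((be K) i 2) * w 2 ∧
  lin ((be K) i) ∣ C ((be K) i 0) * w 1 + C ((be K) i 1) * w 2

theorem TF_mem {k : ℕ} {w : Fin 3 → (S K)} (h : V2 w) (hw : ∀ t, (w t).IsHomogeneous k) :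
    TF w ∈ HD (LT K) (aT K) 2 k := by
  have h0 : ∀ (v : Fin 2 → (Fin 4 → (S K))) (j : Fin 2), v j = cv (aT K) → TF w v = 0 := by
    intro v j hv
    rw [TF_apply]
    fin_cases j
    · have hv' : v 0 = cv (aT K) := hv
      rw [hv']
      simp [cv, aT]
    · have hv' : v 1 = cv (aT K) := hv
      rw [hv']
      simp [cv, aT]
  refine ⟨⟨fun α hα v j hv => ?_, fun u => ?_⟩, h0⟩
  · rcases (mem_LT_iff α).1 hα with h1 | ⟨i, h1⟩
    · rw [h0 v j (by rw [hv, h1])]
      exact dvd_zero _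
    · obtain ⟨⟨r1, hr1⟩, ⟨r2, hr2⟩, ⟨r3, hr3⟩⟩ := h i
      rw [TF_apply]
      subst h1
      fin_cases j
      · have hv' : v 0 = cv ((be K) i) := hv
        rw [hv']
        refine ⟨-(v 1 0) * r1 + v 1 1 * r2 + v 1 2 * r3, ?_⟩
        simp only [cv]
        linear_combination (-(v 1 0)) * hr1 + v 1 1 * hr2 + v 1 2 * hr3
      · have hv' : v 1 = cv ((be K) i) := hv
        rw [hv']
        refine ⟨(v 0 0) * r1 - v 0 1 * r2 - v 0 2 * r3, ?_⟩
        simp only [cv]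
        linear_combination (v 0 0) * hr1 - v 0 1 * hr2 - v 0 2 * hr3
  · have hc : ∀ i j : Fin 4, ∃ c : K, (E2 K) i j (fun t => Pi.single (u t) 1) = C c := by
      intro i j
      refine ⟨(Pi.single (u 0) 1 : Fin 4 → K) i * (Pi.single (u 1) 1 : Fin 4 → K) j -
        (Pi.single (u 0) 1 : Fin 4 → K) j * (Pi.single (u 1) 1 : Fin 4 → K) i, ?_⟩
      rw [E2_apply, C_sub, C_mul, C_mul]
      simp only [Pi.single_apply, apply_ite (C : K → (S K)), map_one, map_zero]
    obtain ⟨c1, h1⟩ := hc 0 1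
    obtain ⟨c2, h2⟩ := hc 0 2
    obtain ⟨c3, h3⟩ := hc 1 2
    simp only [TF, AlternatingMap.add_apply, AlternatingMap.smul_apply, smul_eq_mul, h1, h2, h3]
    have key : ∀ (t : Fin 3) (c : K), (w t * C c).IsHomogeneous k := fun t c => by
      simpa using (hw t).mul (isHomogeneous_C (Fin 4) c)
    exact ((key 0 c1).add (key 1 c2)).add (key 2 c3)

theorem eq_TF (ω : Alt (Fin 4) K (Fin 4) 2)
    (h : ∀ (v : Fin 2 → (Fin 4 → (S K))) (j : Fin 2), v j = cv (aT K) → ω v = 0) :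
    ω = TF ![ω ![Pi.single 0 1, Pi.single 1 1], ω ![Pi.single 0 1, Pi.single 2 1],
      ω ![Pi.single 1 1, Pi.single 2 1]] := by
  have hsw : ∀ x y : Fin 4 → (S K), ω ![y, x] = - ω ![x, y] := by
    intro x y
    have := ω.map_swap ![x, y] (i := 0) (j := 1) (by decide)
    rw [← this]
    congr 1
    funext t
    fin_cases t <;> rfl
  have hsame : ∀ x : Fin 4 → (S K), ω ![x, x] = 0 := fun x =>
    ω.map_eq_zero_of_eq _ (i := 0) (j := 1) rfl (by decide)
  have hl : ∀ x : Fin 4 → (S K), ω ![x, Pi.single 3 1] = 0 := fun x =>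
    h _ 1 (by rw [cv_aT]; rfl)
  have hl' : ∀ x : Fin 4 → (S K), ω ![Pi.single 3 1, x] = 0 := fun x =>
    h _ 0 (by rw [cv_aT]; rfl)
  apply ext_single
  intro w
  have e : (fun j => (Pi.single (w j) 1 : Fin 4 → (S K))) =
      ![Pi.single (w 0) 1, Pi.single (w 1) 1] := by
    funext t
    fin_cases t <;> rfl
  rw [e, TF_apply]
  generalize w 0 = i
  generalize w 1 = j
  fin_cases i <;> fin_cases j <;> simp [hsame, hl, hl'] <;> exact hsw _ _

/-- pairing with `θ_i` -/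
noncomputable def P (w : Fin 3 → (S K)) (i : Fin 4) : (S K) := w 0 * (tz K) i - w 1 * (ty K) i + w 2 * (tx K) i

theorem Q_dvd_P {w : Fin 3 → (S K)} (h : V2 w) (j : Fin 4) : (Q K) ∣ P w j := by
  apply Q_dvd
  intro i
  obtain ⟨⟨r1, hr1⟩, ⟨r2, hr2⟩, ⟨r3, hr3⟩⟩ := h i
  obtain ⟨r, hr⟩ := th_lin (K := K) i j
  obtain ⟨t, ht⟩ := be_some (K := K) i
  unfold P
  fin_cases t
  · have h0 : (C ((be K) i 0) : (S K)) = 1 := by
      have : (be K) i 0 = 1 := ht
      rw [this, map_one]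
    rw [h0] at hr2 hr3 hr
    refine ⟨(tz K) j * r2 - (ty K) j * r3 + w 2 * r, ?_⟩
    linear_combination (tz K) j * hr2 - (ty K) j * hr3 + w 2 * hr
  · have h0 : (C ((be K) i 1) : (S K)) = 1 := by
      have : (be K) i 1 = 1 := ht
      rw [this, map_one]
    rw [h0] at hr1 hr3 hr
    refine ⟨(tz K) j * r1 + (tx K) j * r3 - w 1 * r, ?_⟩
    linear_combination (tz K) j * hr1 + (tx K) j * hr3 - w 1 * hr
  · have h0 : (C ((be K) i 2) : (S K)) = 1 := by
      have : (be K) i 2 = 1 := ht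
      rw [this, map_one]
    rw [h0] at hr1 hr2 hr
    refine ⟨w 0 * r - (ty K) j * r1 - (tx K) j * r2, ?_⟩
    linear_combination w 0 * hr - (ty K) j * hr1 - (tx K) j * hr2

variable (K) in
/-- cross products -/
noncomputable def cr (k l : Fin 4) : Fin 3 → (S K) :=
  ![(tx K) k * (ty K) l - (ty K) k * (tx K) l, (tx K) k * (tz K) l - (tz K) k * (tx K) l, (ty K) k * (tz K) l - (tz K) k * (ty K) l]

theorem cr_V2 (k l : Fin 4) : V2 ((cr K) k l) := by
  intro i
  obtain ⟨r, hr⟩ := th_lin (K := K) i k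
  obtain ⟨s, hs⟩ := th_lin (K := K) i l
  simp only [cr, Matrix.cons_val]
  refine ⟨⟨(tx K) k * s - (tx K) l * r, ?_⟩, ⟨(ty K) l * r - (ty K) k * s, ?_⟩, ⟨(tz K) l * r - (tz K) k * s, ?_⟩⟩
  · linear_combination (tx K) k * hs - (tx K) l * hr
  · linear_combination (ty K) l * hr - (ty K) k * hs
  · linear_combination (tz K) l * hr - (tz K) k * hs

theorem V2.add {w w' : Fin 3 → (S K)} (h : V2 w) (h' : V2 w') : V2 (w + w') := by
  intro i
  obtain ⟨h1, h2, h3⟩ := h i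
  obtain ⟨k1, k2, k3⟩ := h' i
  simp only [Pi.add_apply]
  refine ⟨?_, ?_, ?_⟩
  · convert dvd_add h1 k1 using 1; ring
  · convert dvd_add h2 k2 using 1; ring
  · convert dvd_add h3 k3 using 1; ring

theorem V2.smul {w : Fin 3 → (S K)} (m : (S K)) (h : V2 w) : V2 (m • w) := by
  intro i
  obtain ⟨h1, h2, h3⟩ := h i
  simp only [Pi.smul_apply, smul_eq_mul]
  refine ⟨?_, ?_, ?_⟩
  · convert Dvd.dvd.mul_left h1 m using 1; ring
  · convert Dvd.dvd.mul_left h2 m using 1; ring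
  · convert Dvd.dvd.mul_left h3 m using 1; ring

theorem Q_eq : (Q K) = X 0 * X 1 * X 2 * (X 1 + X 3) * (X 2 + X 3) * (X 0 + X 1) * (X 0 + X 2) *
    (X 0 + X 1 + X 2 + X 3) := by
  unfold Q
  rw [Fin.prod_univ_eight]
  simp [lin4, be]

theorem D123 : P ((cr K) 1 2) 3 = -4 * X 0 * (Q K) := by
  rw [Q_eq]
  simp only [P, cr, Matrix.cons_val, tx, ty, tz]
  generalize (X 0 : (S K)) = a
  generalize (X 1 : (S K)) = b
  generalize (X 2 : (S K)) = c
  generalize (X 3 : (S K)) = d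
  simp [tha, thb, thc]
  ring

theorem D023 : P ((cr K) 0 2) 3 = 4 * X 1 * (Q K) := by
  rw [Q_eq]
  simp only [P, cr, Matrix.cons_val, tx, ty, tz]
  generalize (X 0 : (S K)) = a
  generalize (X 1 : (S K)) = b
  generalize (X 2 : (S K)) = c
  generalize (X 3 : (S K)) = d
  simp [tha, thb, thc]
  ring

theorem D013 : P ((cr K) 0 1) 3 = -4 * X 2 * (Q K) := by
  rw [Q_eq]
  simp only [P, cr, Matrix.cons_val, tx, ty, tz]
  generalize (X 0 : (S K)) = a
  generalize (X 1 : (S K)) = b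
  generalize (X 2 : (S K)) = c
  generalize (X 3 : (S K)) = d
  simp [tha, thb, thc]
  ring

theorem D012 : P ((cr K) 0 1) 2 = 4 * X 3 * (Q K) := by
  rw [Q_eq]
  simp only [P, cr, Matrix.cons_val, tx, ty, tz]
  generalize (X 0 : (S K)) = a
  generalize (X 1 : (S K)) = b
  generalize (X 2 : (S K)) = c
  generalize (X 3 : (S K)) = d
  simp [tha, thb, thc]
  ring

end Pool.Agent.H67ST.STD
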